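import Pool.Agent.W169.AF.Stm2

set_option autoImplicit false

/-!
# Project AF, part C2: good characters give the normalised local situation
-/

namespace Pool.Agent.W169.AF.C2W

open Complex Filter Topology MeasureTheory Set
open Pool.Agent.H24R2.DZ (NN mo yy ra SSq SHar ph)
open Pool.Agent.W169.AF

section Dbl

theorem dbl_le_mono (f g : ℝ → ℝ → ℝ) {a b c d a' b' c' d' : ℝ}
    (ha : a ≤ a') (hab' : a' ≤ b') (hb : b' ≤ b) (hc : c ≤ c') (hcd' : c' ≤ d') (hd : d' ≤ d)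
    (hf : ContinuousOn (fun p : ℝ × ℝ => f p.1 p.2) (Icc a' b' ×ˢ Icc c' d'))
    (hg : ContinuousOn (fun p : ℝ × ℝ => g p.1 p.2) (Icc a b ×ˢ Icc c d))
    (hfg : ∀ x ∈ Icc a' b', ∀ y ∈ Icc c' d', f x y ≤ g x y)
    (h0 : ∀ x ∈ Icc a b, ∀ y ∈ Icc c d, 0 ≤ g x y) :
    ∫ x in a'..b', ∫ y in c'..d', f x y ≤ ∫ x in a..b, ∫ y in c..d, g x y := by
  have hab : a ≤ b := ha.trans (hab'.trans hb)
  have hcd : c ≤ d := hc.trans (hcd'.trans hd)
  set F : ℝ → ℝ → ℝ := fun x y => f (projIcc a' b' hab' x) (projIcc c' d' hcd' y) with hF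
  set G : ℝ → ℝ → ℝ := fun x y => g (projIcc a b hab x) (projIcc c d hcd y) with hG
  have hFc : Continuous (fun p : ℝ × ℝ => F p.1 p.2) := by
    have : Continuous (fun p : ℝ × ℝ => ((projIcc a' b' hab' p.1 : ℝ), (projIcc c' d' hcd' p.2 : ℝ))) :=
      ((continuous_subtype_val.comp (continuous_projIcc.comp continuous_fst))).prodMk
        (continuous_subtype_val.comp (continuous_projIcc.comp continuous_snd))
    exact hf.comp_continuous this (fun p => ⟨(projIcc a' b' hab' p.1).2, (projIcc c' d' hcd' p.2).2⟩)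
  have hGc : Continuous (fun p : ℝ × ℝ => G p.1 p.2) := by
    have : Continuous (fun p : ℝ × ℝ => ((projIcc a b hab p.1 : ℝ), (projIcc c d hcd p.2 : ℝ))) :=
      ((continuous_subtype_val.comp (continuous_projIcc.comp continuous_fst))).prodMk
        (continuous_subtype_val.comp (continuous_projIcc.comp continuous_snd))
    exact hg.comp_continuous this (fun p => ⟨(projIcc a b hab p.1).2, (projIcc c d hcd p.2).2⟩)
  have hFf : ∀ x ∈ Icc a' b', ∀ y ∈ Icc c' d', F x y = f x y := by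
    intro x hx y hy
    simp only [hF, projIcc_of_mem hab' hx, projIcc_of_mem hcd' hy]
  have hGg : ∀ x ∈ Icc a b, ∀ y ∈ Icc c d, G x y = g x y := by
    intro x hx y hy
    simp only [hG, projIcc_of_mem hab hx, projIcc_of_mem hcd hy]
  have e1 : ∫ x in a'..b', ∫ y in c'..d', f x y = ∫ x in a'..b', ∫ y in c'..d', F x y := by
    refine intervalIntegral.integral_congr fun x hx => ?_
    rw [uIcc_of_le hab'] at hx
    refine intervalIntegral.integral_congr fun y hy => ?_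
    rw [uIcc_of_le hcd'] at hy
    exact (hFf x hx y hy).symm
  have e2 : ∫ x in a..b, ∫ y in c..d, g x y = ∫ x in a..b, ∫ y in c..d, G x y := by
    refine intervalIntegral.integral_congr fun x hx => ?_
    rw [uIcc_of_le hab] at hx
    refine intervalIntegral.integral_congr fun y hy => ?_
    rw [uIcc_of_le hcd] at hy
    exact (hGg x hx y hy).symm
  rw [e1, e2]
  have hG0 : ∀ x y, 0 ≤ G x y := fun x y => h0 _ (projIcc a b hab x).2 _ (projIcc c d hcd y).2
  have cF : Continuous fun x => ∫ y in c'..d', F x y :=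
    intervalIntegral.continuous_parametric_intervalIntegral_of_continuous' hFc c' d'
  have cG' : Continuous fun x => ∫ y in c'..d', G x y :=
    intervalIntegral.continuous_parametric_intervalIntegral_of_continuous' hGc c' d'
  have cG : Continuous fun x => ∫ y in c..d, G x y :=
    intervalIntegral.continuous_parametric_intervalIntegral_of_continuous' hGc c d
  have cFx : ∀ x, Continuous (F x) := fun x => hFc.comp (Continuous.prodMk_right x)
  have cGx : ∀ x, Continuous (G x) := fun x => hGc.comp (Continuous.prodMk_right x)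
  calc ∫ x in a'..b', ∫ y in c'..d', F x y
      ≤ ∫ x in a'..b', ∫ y in c..d, G x y := by
        refine intervalIntegral.integral_mono_on hab' (cF.intervalIntegrable _ _)
          (cG.intervalIntegrable _ _) fun x hx => ?_
        have hx' : x ∈ Icc a b := ⟨ha.trans hx.1, hx.2.trans hb⟩
        calc ∫ y in c'..d', F x y ≤ ∫ y in c'..d', G x y := by
              refine intervalIntegral.integral_mono_on hcd' ((cFx x).intervalIntegrable _ _)
                ((cGx x).intervalIntegrable _ _) fun y hy => ?_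
              rw [hFf x hx y hy, hGg x hx' y ⟨hc.trans hy.1, hy.2.trans hd⟩]
              exact hfg x hx y hy
          _ ≤ ∫ y in c..d, G x y := by
              refine intervalIntegral.integral_mono_interval hc hcd' hd ?_
                ((cGx x).intervalIntegrable _ _)
              exact Filter.Eventually.of_forall fun y => hG0 x y
    _ ≤ ∫ x in a..b, ∫ y in c..d, G x y := by
        refine intervalIntegral.integral_mono_interval ha hab' hb ?_ (cG.intervalIntegrable _ _)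
        refine Filter.Eventually.of_forall fun x => ?_
        exact intervalIntegral.integral_nonneg hcd fun y _ => hG0 x y

end Dbl

/-- the statement `SSq` with the constant -/
def SqC (C : ℝ) : Prop := ∀ (g : ℂ → ℂ) (x0 y0 ρ : ℝ), 0 < ρ →
  (∀ z : ℂ, |z.re - x0| ≤ ρ → |z.im - y0| ≤ ρ → DifferentiableAt ℂ g z) →
  ‖g (x0 + y0 * I)‖ ^ 2 ≤ C / ρ ^ 2 *
    ∫ x in (x0 - ρ)..(x0 + ρ), ∫ y in (y0 - ρ)..(y0 + ρ), ‖g (x + y * I)‖ ^ 2

/-- growth of a function whose logarithmic derivative is almost constant -/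
theorem grow {H : ℂ → ℂ} {A δ : ℝ} {s0 s1 : ℂ}
    (hd : ∀ t : ℝ, 0 ≤ t → t ≤ 1 → DifferentiableAt ℂ H (s0 + t * (s1 - s0)) ∧
      H (s0 + t * (s1 - s0)) ≠ 0 ∧ ‖logDeriv H (s0 + t * (s1 - s0)) - (A : ℂ)‖ ≤ δ) :
    ‖H s1‖ ≤ ‖H s0‖ * Real.exp (A * (s1 - s0).re + δ * ‖s1 - s0‖) := by
  set w : ℂ := s1 - s0 with hw
  set f : ℝ → ℂ := fun t => H (s0 + t * w) * cexp (-(A * (t * w))) with hf
  have hder : ∀ t : ℝ, 0 ≤ t → t ≤ 1 →
      HasDerivAt f ((logDeriv H (s0 + t * w) - (A : ℂ)) * w * f t) t := by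
    intro t ht0 ht1
    obtain ⟨h1, h2, -⟩ := hd t ht0 ht1
    have h3 : HasDerivAt (fun t : ℝ => (t : ℂ) * w) w t := by
      simpa using (Complex.ofRealCLM.hasDerivAt (x := t)).mul_const w
    have h4 : HasDerivAt (fun t : ℝ => s0 + (t : ℂ) * w) w t := h3.const_add s0
    have h5 : HasDerivAt (fun t : ℝ => H (s0 + (t : ℂ) * w)) (deriv H (s0 + t * w) * w) t :=
      HasDerivAt.comp (h₂ := H) (h := fun t : ℝ => s0 + (t : ℂ) * w) t h1.hasDerivAt h4
    have h6 : HasDerivAt (fun t : ℝ => cexp (-(A * ((t : ℂ) * w))))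
        (cexp (-(A * ((t : ℂ) * w))) * (-(A * w))) t := by
      have h7 : HasDerivAt (fun t : ℝ => -((A : ℂ) * ((t : ℂ) * w))) (-(A * w)) t :=
        (h3.const_mul (A : ℂ)).neg
      exact h7.cexp
    have h8 := h5.mul h6
    refine h8.congr_deriv ?_
    simp only [hf, logDeriv_apply]
    field_simp
    ring
  have hg := norm_le_gronwallBound_of_norm_deriv_right_le (f := f)
    (f' := fun t => (logDeriv H (s0 + t * w) - (A : ℂ)) * w * f t) (δ := ‖f 0‖) (K := δ * ‖w‖)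
    (ε := 0) (a := 0) (b := 1)
    (fun t ht => (hder t ht.1 ht.2).continuousAt.continuousWithinAt)
    (fun t ht => (hder t ht.1 ht.2.le).hasDerivWithinAt) le_rfl (by
      intro t ht
      rw [norm_mul, norm_mul, add_zero]
      have := (hd t ht.1 ht.2.le).2.2
      gcongr) 1 ⟨zero_le_one, le_rfl⟩
  rw [gronwallBound_ε0, sub_zero, mul_one] at hg
  have e1 : ‖f 1‖ = ‖H s1‖ * Real.exp (-(A * w.re)) := by
    simp only [hf]
    rw [norm_mul, Complex.norm_exp]
    congr 2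
    · congr 1
      rw [hw]; push_cast; ring
    · simp
  have e0 : ‖f 0‖ = ‖H s0‖ := by
    simp [hf]
  rw [e1, e0] at hg
  have h9 := mul_le_mul_of_nonneg_right hg (Real.exp_pos (A * w.re)).le
  rw [mul_assoc, ← Real.exp_add, neg_add_cancel, Real.exp_zero, mul_one, mul_assoc,
    ← Real.exp_add] at h9
  rw [add_comm (A * w.re)]
  exact h9

section Parts

variable {C1 t0 r : ℝ} {Lf m : ℂ → ℂ}

theorem partA (hL : Differentiable ℂ Lf) (hm : Differentiable ℂ m) (hC1 : 0 < C1) (hsq : SqC C1)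
    (hr0 : 0 < r)
    (hG : (∫ x in (r / 4000)..(30 * r), ∫ y in (-(30 * r))..(30 * r),
      ‖Lf (1 / 2 + x + (t0 + y) * I) * m (1 / 2 + x + (t0 + y) * I) - 1‖ ^ 2) ≤
        1 / (256000000 * C1) * r ^ 2) (x1 y1 : ℝ) (hx1 : r / 2000 ≤ x1) (hx2 : x1 ≤ 25 * r)
    (hy1 : -(25 * r) ≤ y1) (hy2 : y1 ≤ 25 * r) :
    ‖Lf (1 / 2 + x1 + (t0 + y1) * I) * m (1 / 2 + x1 + (t0 + y1) * I) - 1‖ ≤ 1 / 2 := by
  set g : ℂ → ℂ := fun w => Lf (1 / 2 + w + t0 * I) * m (1 / 2 + w + t0 * I) - 1 with hg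
  have hgd : Differentiable ℂ g := by
    have h2 : Differentiable ℂ (fun w : ℂ => 1 / 2 + w + t0 * I) := by fun_prop
    exact ((hL.comp h2).mul (hm.comp h2)).sub (differentiable_const _)
  have hgv : ∀ x y : ℝ, g (x + y * I) =
      Lf (1 / 2 + x + (t0 + y) * I) * m (1 / 2 + x + (t0 + y) * I) - 1 := by
    intro x y
    simp only [hg]
    have : (1 / 2 + ((x : ℂ) + y * I) + t0 * I) = 1 / 2 + x + (t0 + y) * I := by ring
    rw [this]
  have h := hsq g x1 y1 (r / 8000) (by positivity) (fun z _ _ => hgd z)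
  have hcg : Continuous (fun p : ℝ × ℝ => ‖g (p.1 + p.2 * I)‖ ^ 2) :=
    (hgd.continuous.comp (by fun_prop)).norm.pow 2
  simp only [hgv] at h hcg
  have hI : ∫ x in (x1 - r / 8000)..(x1 + r / 8000), ∫ y in (y1 - r / 8000)..(y1 + r / 8000),
      ‖Lf (1 / 2 + x + (t0 + y) * I) * m (1 / 2 + x + (t0 + y) * I) - 1‖ ^ 2 ≤
      1 / (256000000 * C1) * r ^ 2 := by
    refine le_trans ?_ hG
    exact dbl_le_mono
      (fun x y => ‖Lf (1 / 2 + x + (t0 + y) * I) * m (1 / 2 + x + (t0 + y) * I) - 1‖ ^ 2)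
      (fun x y => ‖Lf (1 / 2 + x + (t0 + y) * I) * m (1 / 2 + x + (t0 + y) * I) - 1‖ ^ 2)
      (by linarith) (by linarith) (by linarith) (by linarith) (by linarith) (by linarith)
      hcg.continuousOn hcg.continuousOn (fun _ _ _ _ => le_rfl) (fun _ _ _ _ => by positivity)
  have h3 : C1 / (r / 8000) ^ 2 * (1 / (256000000 * C1) * r ^ 2) = (1 / 2) ^ 2 := by
    field_simp
    norm_num
  have h4 : ‖Lf (1 / 2 + x1 + (t0 + y1) * I) * m (1 / 2 + x1 + (t0 + y1) * I) - 1‖ ^ 2 ≤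
      (1 / 2) ^ 2 := by
    rw [← h3]
    exact h.trans (mul_le_mul_of_nonneg_left hI (by positivity))
  exact (pow_le_pow_iff_left₀ (norm_nonneg _) (by norm_num) two_ne_zero).1 h4

theorem partB (hL : Differentiable ℂ Lf) (hC1 : 0 < C1) (hsq : SqC C1) (hr0 : 0 < r) (M : ℂ)
    (E : ℝ) (hG : (∫ x in (0 : ℝ)..(30 * r), ∫ y in (-(30 * r))..(30 * r),
      ‖Lf (1 / 2 + x + (t0 + y) * I) * M‖ ^ 2) ≤ E * r ^ 2)
    (x1 y1 : ℝ) (hx1 : r / 2000 ≤ x1) (hx2 : x1 ≤ 25 * r)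
    (hy1 : -(25 * r) ≤ y1) (hy2 : y1 ≤ 25 * r) :
    ‖Lf (1 / 2 + x1 + (t0 + y1) * I) * M‖ ^ 2 ≤ 16000000 * C1 * E := by
  set g : ℂ → ℂ := fun w => Lf (1 / 2 + w + t0 * I) * M with hg
  have hgd : Differentiable ℂ g := by
    have h2 : Differentiable ℂ (fun w : ℂ => 1 / 2 + w + t0 * I) := by fun_prop
    exact (hL.comp h2).mul (differentiable_const _)
  have hgv : ∀ x y : ℝ, g (x + y * I) = Lf (1 / 2 + x + (t0 + y) * I) * M := by
    intro x y
    simp only [hg]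
    have : (1 / 2 + ((x : ℂ) + y * I) + t0 * I) = 1 / 2 + x + (t0 + y) * I := by ring
    rw [this]
  have h := hsq g x1 y1 (r / 4000) (by positivity) (fun z _ _ => hgd z)
  have hcg : Continuous (fun p : ℝ × ℝ => ‖g (p.1 + p.2 * I)‖ ^ 2) :=
    (hgd.continuous.comp (by fun_prop)).norm.pow 2
  simp only [hgv] at h hcg
  have hI : ∫ x in (x1 - r / 4000)..(x1 + r / 4000), ∫ y in (y1 - r / 4000)..(y1 + r / 4000),
      ‖Lf (1 / 2 + x + (t0 + y) * I) * M‖ ^ 2 ≤ E * r ^ 2 := by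
    refine le_trans ?_ hG
    exact dbl_le_mono
      (fun x y => ‖Lf (1 / 2 + x + (t0 + y) * I) * M‖ ^ 2)
      (fun x y => ‖Lf (1 / 2 + x + (t0 + y) * I) * M‖ ^ 2)
      (by linarith) (by linarith) (by linarith) (by linarith) (by linarith) (by linarith)
      hcg.continuousOn hcg.continuousOn (fun _ _ _ _ => le_rfl) (fun _ _ _ _ => by positivity)
  have h3 : C1 / (r / 4000) ^ 2 * (E * r ^ 2) = 16000000 * C1 * E := by
    field_simp
    ring
  rw [← h3]
  exact h.trans (mul_le_mul_of_nonneg_left hI (by positivity))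

theorem int_even (G : ℝ → ℝ) (hG : Continuous G) (he : ∀ x, G (-x) = G x) (A : ℝ) :
    ∫ x in (-A)..A, G x = 2 * ∫ x in (0 : ℝ)..A, G x := by
  rw [← intervalIntegral.integral_add_adjacent_intervals (b := 0) (hG.intervalIntegrable _ _)
    (hG.intervalIntegrable _ _)]
  have : ∫ x in (-A)..0, G x = ∫ x in (0 : ℝ)..A, G x := by
    have h := intervalIntegral.integral_comp_neg (a := 0) (b := A) G
    simp only [he, neg_zero] at h
    exact h.symm
  rw [this]
  ring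


/-- The bound near the critical line. -/
theorem partC {Lc H : ℂ → ℂ} (hL : Differentiable ℂ Lf) (hLc : Differentiable ℂ Lc)
    (hsym : ∀ w : ℂ, ‖Lc (1 / 2 + I * t0 - (starRingEnd ℂ) w)‖ = ‖Lc (1 / 2 + I * t0 + w)‖)
    (hLH : ∀ s : ℂ, 0 < s.re → Lc s = H s * Lf s)
    (hC1 : 0 < C1) (hsq : SqC C1) (hr0 : 0 < r) (M : ℂ)
    (hM : M ≠ 0) (E : ℝ) (hG : (∫ x in (0 : ℝ)..(30 * r), ∫ y in (-(30 * r))..(30 * r),
      ‖Lf (1 / 2 + x + (t0 + y) * I) * M‖ ^ 2) ≤ E * r ^ 2)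
    (B : ℝ) (hB : ∀ x y : ℝ, 0 ≤ x → x ≤ r / 50 → -(21 * r) ≤ y → y ≤ 21 * r →
      ‖H (1 / 2 + I * t0 + (x + y * I))‖ ^ 2 ≤ B)
    (x1 y1 : ℝ) (hx1 : -(r / 1000) ≤ x1) (hx2 : x1 ≤ r / 1000)
    (hy1 : -(20 * r) ≤ y1) (hy2 : y1 ≤ 20 * r) :
    ‖Lc (1 / 2 + I * t0 + (x1 + y1 * I))‖ ^ 2 ≤ 20000 * C1 * B * E / ‖M‖ ^ 2 := by
  have hB0 : 0 ≤ B := (sq_nonneg _).trans (hB 0 0 le_rfl (by positivity) (by linarith) (by linarith))
  have haff : Differentiable ℂ (fun w : ℂ => 1 / 2 + I * t0 + w) := by fun_prop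
  have hLd : Differentiable ℂ (fun w : ℂ => Lc (1 / 2 + I * t0 + w)) := hLc.comp haff
  have h := hsq (fun w => Lc (1 / 2 + I * t0 + w)) x1 y1 (r / 100) (by positivity)
    (fun z _ _ => hLd z)
  set f : ℝ → ℝ → ℝ := fun x y => ‖Lc (1 / 2 + I * t0 + (x + y * I))‖ ^ 2 with hf
  have hfc : Continuous (fun p : ℝ × ℝ => f p.1 p.2) := by
    simp only [hf]
    exact (hLc.continuous.comp (by fun_prop)).norm.pow 2
  have hcg : Continuous (fun p : ℝ × ℝ => ‖Lf (1 / 2 + p.1 + (t0 + p.2) * I) * M‖ ^ 2) :=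
    ((hL.continuous.comp (by fun_prop)).mul continuous_const).norm.pow 2
  have hM0 : 0 < ‖M‖ := norm_pos_iff.2 hM
  -- enlarge the square
  have e1 : ∫ x in (x1 - r / 100)..(x1 + r / 100), ∫ y in (y1 - r / 100)..(y1 + r / 100), f x y ≤
      ∫ x in (-(r / 50))..(r / 50), ∫ y in (-(21 * r))..(21 * r), f x y :=
    dbl_le_mono f f (by linarith) (by linarith) (by linarith) (by linarith) (by linarith)
      (by linarith) hfc.continuousOn hfc.continuousOn (fun _ _ _ _ => le_rfl)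
      (fun _ _ _ _ => by positivity)
  have e2 : ∫ x in (-(r / 50))..(r / 50), ∫ y in (-(21 * r))..(21 * r), f x y =
      2 * ∫ x in (0 : ℝ)..(r / 50), ∫ y in (-(21 * r))..(21 * r), f x y := by
    refine int_even _ (intervalIntegral.continuous_parametric_intervalIntegral_of_continuous' hfc
      _ _) (fun x => ?_) _
    refine intervalIntegral.integral_congr fun y _ => ?_
    simp only [hf]
    have : (1 / 2 + I * t0 + (((-x : ℝ) : ℂ) + y * I)) =
        1 / 2 + I * t0 - (starRingEnd ℂ) ((x : ℂ) + y * I) := by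
      simp only [map_add, map_mul, conj_I, conj_ofReal, ofReal_neg]
      ring
    rw [this, hsym]
  have e3 : ∫ x in (0 : ℝ)..(r / 50), ∫ y in (-(21 * r))..(21 * r), f x y ≤
      ∫ x in (0 : ℝ)..(30 * r), ∫ y in (-(30 * r))..(30 * r),
        B / ‖M‖ ^ 2 * ‖Lf (1 / 2 + x + (t0 + y) * I) * M‖ ^ 2 := by
    refine dbl_le_mono f
      (fun x y => B / ‖M‖ ^ 2 * ‖Lf (1 / 2 + x + (t0 + y) * I) * M‖ ^ 2)
      le_rfl (by positivity) (by linarith) (by linarith) (by linarith) (by linarith)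
      hfc.continuousOn (continuous_const.mul hcg).continuousOn ?_
      (fun _ _ _ _ => by positivity)
    intro x hx y hy
    simp only [hf]
    have hre : 0 < (1 / 2 + I * t0 + ((x : ℂ) + y * I)).re := by
      have := hx.1
      simp
      linarith
    rw [hLH _ hre, norm_mul, mul_pow]
    have e4 : (1 / 2 + I * t0 + ((x : ℂ) + y * I)) = 1 / 2 + x + (t0 + y) * I := by ring
    have hB' := hB x y hx.1 hx.2 hy.1 hy.2
    rw [e4] at hB' ⊢
    rw [norm_mul, mul_pow]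
    have e5 : B / ‖M‖ ^ 2 * (‖Lf (1 / 2 + x + (t0 + y) * I)‖ ^ 2 * ‖M‖ ^ 2) =
        B * ‖Lf (1 / 2 + x + (t0 + y) * I)‖ ^ 2 := by
      field_simp
    rw [e5]
    exact mul_le_mul_of_nonneg_right hB' (by positivity)
  have e6 : ∫ x in (0 : ℝ)..(30 * r), ∫ y in (-(30 * r))..(30 * r),
        B / ‖M‖ ^ 2 * ‖Lf (1 / 2 + x + (t0 + y) * I) * M‖ ^ 2 ≤
        B / ‖M‖ ^ 2 * (E * r ^ 2) := by
    simp only [intervalIntegral.integral_const_mul]
    exact mul_le_mul_of_nonneg_left hG (by positivity)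
  have e7 : C1 / (r / 100) ^ 2 * (2 * (B / ‖M‖ ^ 2 * (E * r ^ 2))) =
      20000 * C1 * B * E / ‖M‖ ^ 2 := by
    field_simp
    ring
  rw [← e7]
  refine h.trans (mul_le_mul_of_nonneg_left ?_ (by positivity))
  calc _ ≤ _ := e1
    _ = _ := e2
    _ ≤ _ := by linarith [e3, e6]

end Parts

theorem pt_eq (t0 r : ℝ) (z : ℂ) : (1 / 2 + I * t0 + r * z : ℂ) =
    1 / 2 + ((r * z.re : ℝ) : ℂ) + (t0 + ((r * z.im : ℝ) : ℂ)) * I := by
  apply Complex.ext <;> simp

/-- the analytic core -/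
theorem core {C1 C2 : ℝ} (hC1 : 0 < C1) (hsq : SqC C1) (hC2 : 0 < C2)
    (hhar : ∀ (B : ℝ) (K : ℂ → ℂ), 0 ≤ B →
      (∀ z : ℂ, 1 / 2000 ≤ z.re → z.re ≤ 25 → |z.im| ≤ 25 →
        DifferentiableAt ℂ K z ∧ K z ≠ 0 ∧ ‖K z‖ ≤ Real.exp B * ‖K 1‖) →
      ∀ z : ℂ, 1 / 1000 ≤ z.re → z.re ≤ 21 → |z.im| ≤ 21 → ‖logDeriv K z‖ ≤ C2 * B)
    {Lf m Lc H : ℂ → ℂ} (hL : Differentiable ℂ Lf) (hm : Differentiable ℂ m)
    (hLc : Differentiable ℂ Lc) {t0 r a A δ ε D η E0 : ℝ}
    (hsym : ∀ w : ℂ, ‖Lc (1 / 2 + I * t0 - (starRingEnd ℂ) w)‖ = ‖Lc (1 / 2 + I * t0 + w)‖)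
    (hH : ∀ s : ℂ, 0 < s.re → DifferentiableAt ℂ H s ∧ H s ≠ 0 ∧ Lc s = H s * Lf s)
    (hlog : ∀ s : ℂ, 1 / 4 ≤ s.re → s.re ≤ 7 → |s.im - t0| ≤ 7 → ‖logDeriv H s - (A : ℂ)‖ ≤ δ)
    (hr0 : 0 < r) (hr : r ≤ 1 / 5) (ha : 0 < a) (hrA : r * A = a) (hA : 0 < A)
    (hε : 0 < ε) (hε1 : ε ≤ 1 / 20) (hδ1 : δ * r ≤ a / 2500) (hδ0 : 0 ≤ δ)
    (hD : Real.exp D = 1 + 2 * Real.sqrt (16000000 * C1)) (hD0 : 0 ≤ D)
    (hE0 : Real.exp E0 = 1 + 80000 * C1) (hE0a : 20 * E0 ≤ a)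
    (hfar : δ * r + C2 * (ε * a / 2 + D) ≤ η * a)
    (hG1 : (∫ x in (r / 4000)..(30 * r), ∫ y in (-(30 * r))..(30 * r),
      ‖Lf (1 / 2 + x + (t0 + y) * I) * m (1 / 2 + x + (t0 + y) * I) - 1‖ ^ 2) ≤
        1 / (256000000 * C1) * r ^ 2)
    (hG2 : (∫ x in (0 : ℝ)..(30 * r), ∫ y in (-(30 * r))..(30 * r),
      ‖Lf (1 / 2 + x + (t0 + y) * I) * m (1 / 2 + r + t0 * I)‖ ^ 2) ≤
        Real.exp (ε * a) * r ^ 2) :
    (∀ z : ℂ, 1 / 1000 ≤ z.re → ‖z‖ ≤ 20 → Lc (1 / 2 + I * t0 + r * z) ≠ 0 ∧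
      ‖logDeriv (fun z : ℂ => Lc (1 / 2 + I * t0 + r * z)) z - a‖ ≤ η * a) ∧
    (∀ z : ℂ, |z.re| ≤ 1 / 1000 → ‖z‖ ≤ 20 → ‖Lc (1 / 2 + I * t0 + r * z)‖ ≤
      ‖Lc (1 / 2 + I * t0 + r * 1)‖ * Real.exp (-(9 / 10 * a))) ∧
    1 / 2 ≤ ‖Lf (1 / 2 + I * t0 + r * 1) * m (1 / 2 + r + t0 * I)‖ := by
  have hsq0 := Real.sqrt_nonneg (16000000 * C1)
  set M := m (1 / 2 + r + t0 * I) with hMdef
  set Kf : ℂ → ℂ := fun z => Lf (1 / 2 + I * t0 + r * z) with hKf
  have hAA : ∀ z : ℂ, 1 / 2000 ≤ z.re → z.re ≤ 25 → |z.im| ≤ 25 →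
      ‖Kf z * m (1 / 2 + I * t0 + r * z) - 1‖ ≤ 1 / 2 := by
    intro z hz1 hz2 hz3
    rw [abs_le] at hz3
    simp only [hKf]
    rw [pt_eq]
    exact partA hL hm hC1 hsq hr0 hG1 (r * z.re) (r * z.im)
      (by linarith [mul_le_mul_of_nonneg_left hz1 hr0.le])
      (by linarith [mul_le_mul_of_nonneg_left hz2 hr0.le])
      (by linarith [mul_le_mul_of_nonneg_left hz3.1 hr0.le])
      (by linarith [mul_le_mul_of_nonneg_left hz3.2 hr0.le])
  have hKne : ∀ z : ℂ, 1 / 2000 ≤ z.re → z.re ≤ 25 → |z.im| ≤ 25 → Kf z ≠ 0 := by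
    intro z hz1 hz2 hz3 h0
    have := hAA z hz1 hz2 hz3
    rw [h0, zero_mul, zero_sub, norm_neg, norm_one] at this
    norm_num at this
  have hone : 1 / 2 ≤ ‖Kf 1 * M‖ := by
    have h3 := hAA 1 (by norm_num) (by norm_num) (by norm_num)
    have h4 : (1 / 2 + I * t0 + r * 1 : ℂ) = 1 / 2 + r + t0 * I := by ring
    rw [h4, ← hMdef] at h3
    have h5 : ‖(1 : ℂ)‖ ≤ ‖Kf 1 * M‖ + ‖Kf 1 * M - 1‖ := by
      have := norm_sub_le (Kf 1 * M) (Kf 1 * M - 1)
      simpa using this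
    rw [norm_one] at h5
    linarith
  have hM0 : M ≠ 0 := by
    intro h0
    rw [h0, mul_zero, norm_zero] at hone
    norm_num at hone
  have hMn : 0 < ‖M‖ := norm_pos_iff.2 hM0
  have hBd : ∀ z : ℂ, 1 / 2000 ≤ z.re → z.re ≤ 25 → |z.im| ≤ 25 →
      ‖Kf z‖ ≤ Real.exp (ε * a / 2 + D) * ‖Kf 1‖ := by
    intro z hz1 hz2 hz3
    rw [abs_le] at hz3
    have h3 := partB hL hC1 hsq hr0 M (Real.exp (ε * a)) hG2 (r * z.re) (r * z.im)
      (by linarith [mul_le_mul_of_nonneg_left hz1 hr0.le])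
      (by linarith [mul_le_mul_of_nonneg_left hz2 hr0.le])
      (by linarith [mul_le_mul_of_nonneg_left hz3.1 hr0.le])
      (by linarith [mul_le_mul_of_nonneg_left hz3.2 hr0.le])
    rw [← pt_eq] at h3
    have h4 : 16000000 * C1 * Real.exp (ε * a) =
        (Real.sqrt (16000000 * C1) * Real.exp (ε * a / 2)) ^ 2 := by
      rw [mul_pow, Real.sq_sqrt (by positivity), ← Real.exp_nat_mul]
      congr 2
      push_cast
      ring
    rw [h4] at h3
    have h5 := (pow_le_pow_iff_left₀ (norm_nonneg _) (by positivity) two_ne_zero).1 h3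
    change ‖Kf z * M‖ ≤ _ at h5
    rw [norm_mul] at h5
    have h6 : ‖Kf z‖ * ‖M‖ ≤ (Real.exp (ε * a / 2 + D) * ‖Kf 1‖) * ‖M‖ := by
      rw [norm_mul] at hone
      calc ‖Kf z‖ * ‖M‖ ≤ Real.sqrt (16000000 * C1) * Real.exp (ε * a / 2) := h5
        _ ≤ (Real.exp D / 2) * Real.exp (ε * a / 2) := by
            gcongr
            linarith
        _ = Real.exp (ε * a / 2 + D) * (1 / 2) := by rw [Real.exp_add]; ring
        _ ≤ Real.exp (ε * a / 2 + D) * (‖Kf 1‖ * ‖M‖) := by gcongr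
        _ = _ := by ring
    exact le_of_mul_le_mul_right h6 hMn
  have hafd : ∀ z : ℂ, HasDerivAt (fun z : ℂ => 1 / 2 + I * t0 + r * z) (r : ℂ) z := by
    intro z
    simpa using ((hasDerivAt_id z).const_mul (r : ℂ)).const_add (1 / 2 + I * (t0 : ℂ))
  have hKd : ∀ z : ℂ, DifferentiableAt ℂ Kf z := by
    intro z
    exact DifferentiableAt.comp (g := Lf) (f := fun z : ℂ => 1 / 2 + I * t0 + r * z) z (hL _)
      (hafd z).differentiableAt
  have hre : ∀ z : ℂ, (1 / 2 + I * t0 + r * z : ℂ).re = 1 / 2 + r * z.re := by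
    intro z; simp
  have himm : ∀ z : ℂ, (1 / 2 + I * t0 + r * z : ℂ).im = t0 + r * z.im := by
    intro z; simp
  have hFK : ∀ z : ℂ, 0 < z.re → Lc (1 / 2 + I * t0 + r * z) = H (1 / 2 + I * t0 + r * z) * Kf z := by
    intro z hz
    refine (hH _ ?_).2.2
    rw [hre]
    positivity
  refine ⟨?_, ?_, hone⟩
  · intro z hz1 hz2
    have hzre := (Complex.abs_re_le_norm z).trans hz2
    have hzim := (Complex.abs_im_le_norm z).trans hz2
    have hzre' := (abs_le.1 hzre).2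
    have h20 : r * 20 ≤ 4 := by linarith
    have hres : 1 / 4 ≤ (1 / 2 + I * t0 + r * z : ℂ).re := by
      rw [hre]
      have : 0 ≤ r * z.re := mul_nonneg hr0.le (by linarith)
      linarith
    have hres2 : (1 / 2 + I * t0 + r * z : ℂ).re ≤ 7 := by
      rw [hre]
      have : r * z.re ≤ r * 20 := mul_le_mul_of_nonneg_left hzre' hr0.le
      linarith
    have hims : |(1 / 2 + I * t0 + r * z : ℂ).im - t0| ≤ 7 := by
      rw [himm, add_sub_cancel_left, abs_mul, abs_of_pos hr0]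
      have : r * |z.im| ≤ r * 20 := mul_le_mul_of_nonneg_left hzim hr0.le
      linarith
    obtain ⟨hd, hne, -⟩ := hH (1 / 2 + I * t0 + r * z) (by linarith)
    have hld := hlog _ hres hres2 hims
    have hK0 : Kf z ≠ 0 := hKne z (by linarith) (by linarith) (by linarith)
    have hF0 : Lc (1 / 2 + I * t0 + r * z) = H (1 / 2 + I * t0 + r * z) * Kf z :=
      hFK z (by linarith)
    refine ⟨by rw [hF0]; exact mul_ne_zero hne hK0, ?_⟩
    have hev : (fun z : ℂ => Lc (1 / 2 + I * t0 + r * z)) =ᶠ[𝓝 z]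
        fun z => H (1 / 2 + I * t0 + r * z) * Kf z := by
      have hopen : IsOpen {w : ℂ | 0 < w.re} :=
        isOpen_lt continuous_const Complex.continuous_re
      filter_upwards [hopen.mem_nhds (show 0 < z.re by linarith)] with w hw
      exact hFK w hw
    have hlg : logDeriv (fun z : ℂ => Lc (1 / 2 + I * t0 + r * z)) z =
        logDeriv (fun z : ℂ => H (1 / 2 + I * t0 + r * z) * Kf z) z := by
      rw [logDeriv_apply, logDeriv_apply, hev.deriv_eq, hF0]
    have haff := hafd z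
    have hcd : DifferentiableAt ℂ (fun z : ℂ => H (1 / 2 + I * t0 + r * z)) z :=
      DifferentiableAt.comp (g := H) (f := fun z : ℂ => 1 / 2 + I * t0 + r * z) z hd
        haff.differentiableAt
    rw [hlg, logDeriv_mul z hne hK0 hcd (hKd z)]
    have hcomp : logDeriv (fun z : ℂ => H (1 / 2 + I * t0 + r * z)) z =
        logDeriv H (1 / 2 + I * t0 + r * z) * r := by
      have := logDeriv_comp (f := H) (g := fun z : ℂ => 1 / 2 + I * t0 + r * z) (x := z) hd
        haff.differentiableAt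
      rw [haff.deriv] at this
      exact this
    rw [hcomp]
    have hkb := hhar (ε * a / 2 + D) Kf (by positivity) (fun w hw1 hw2 hw3 =>
      ⟨hKd w, hKne w hw1 hw2 hw3, hBd w hw1 hw2 hw3⟩) z hz1 (by linarith) (by linarith)
    have e1 : logDeriv H (1 / 2 + I * t0 + r * z) * r + logDeriv Kf z - a =
        (logDeriv H (1 / 2 + I * t0 + r * z) - (A : ℂ)) * r + logDeriv Kf z := by
      rw [← hrA]
      push_cast
      ring
    rw [e1]
    have e2 : ‖(logDeriv H (1 / 2 + I * t0 + r * z) - (A : ℂ)) * r‖ ≤ δ * r := by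
      rw [norm_mul, Complex.norm_real, Real.norm_of_nonneg hr0.le]
      gcongr
    calc _ ≤ ‖(logDeriv H (1 / 2 + I * t0 + r * z) - (A : ℂ)) * r‖ + ‖logDeriv Kf z‖ :=
          norm_add_le _ _
      _ ≤ δ * r + C2 * (ε * a / 2 + D) := by gcongr
      _ ≤ η * a := hfar
  · intro z hz1 hz2
    have himz := (Complex.abs_im_le_norm z).trans hz2
    rw [abs_le] at hz1 himz
    set N1 := ‖H (1 / 2 + I * t0 + r)‖ with hN1
    have hBB : ∀ x y : ℝ, 0 ≤ x → x ≤ r / 50 → -(21 * r) ≤ y → y ≤ 21 * r →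
        ‖H (1 / 2 + I * t0 + (x + y * I))‖ ^ 2 ≤
          Real.exp (2 * (-(49 / 50 * a) + 22 * (a / 2500))) * N1 ^ 2 := by
      intro x y hx1 hx2 hy1 hy2
      have hg := grow (H := H) (A := A) (δ := δ) (s0 := 1 / 2 + I * t0 + r)
        (s1 := 1 / 2 + I * t0 + (x + y * I)) (by
          intro t ht0 ht1
          have e1 : (1 / 2 + I * t0 + r + t * (1 / 2 + I * t0 + (x + y * I) -
              (1 / 2 + I * t0 + r)) : ℂ) =
              ((1 / 2 + (1 - t) * r + t * x : ℝ) : ℂ) + ((t0 + t * y : ℝ) : ℂ) * I := by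
            push_cast
            ring
          rw [e1]
          have er : (((1 / 2 + (1 - t) * r + t * x : ℝ) : ℂ) + ((t0 + t * y : ℝ) : ℂ) * I).re =
              1 / 2 + (1 - t) * r + t * x := by
            simp only [add_re, ofReal_re, mul_re, I_re, mul_zero, ofReal_im, I_im, mul_one, sub_self,
              add_zero]
          have ei : (((1 / 2 + (1 - t) * r + t * x : ℝ) : ℂ) + ((t0 + t * y : ℝ) : ℂ) * I).im =
              t0 + t * y := by
            simp only [add_im, ofReal_im, mul_im, I_re, mul_zero, ofReal_re, I_im, mul_one,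
              add_zero, zero_add]
          have k1 : 0 ≤ (1 - t) * r := mul_nonneg (by linarith) hr0.le
          have k2 : 0 ≤ t * x := mul_nonneg ht0 hx1
          have k3 : (1 - t) * r ≤ 1 * r := mul_le_mul_of_nonneg_right (by linarith) hr0.le
          have k4 : t * x ≤ 1 * x := mul_le_mul_of_nonneg_right ht1 hx1
          have k5 : |t * y| ≤ 1 * (21 * r) := by
            rw [abs_mul, abs_of_nonneg ht0]
            exact mul_le_mul ht1 (abs_le.2 ⟨hy1, hy2⟩) (abs_nonneg _) zero_le_one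
          obtain ⟨p1, p2, -⟩ := hH (((1 / 2 + (1 - t) * r + t * x : ℝ) : ℂ) +
            ((t0 + t * y : ℝ) : ℂ) * I) (by rw [er]; linarith)
          refine ⟨p1, p2, hlog _ (by rw [er]; linarith) (by rw [er]; linarith) ?_⟩
          rw [ei, add_sub_cancel_left]
          linarith)
      have e2 : (1 / 2 + I * t0 + (x + y * I) - (1 / 2 + I * t0 + r) : ℂ) =
          ((x - r : ℝ) : ℂ) + (y : ℂ) * I := by
        push_cast
        ring
      have e3 : (((x - r : ℝ) : ℂ) + (y : ℂ) * I).re = x - r := by simp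
      have e4 : (((x - r : ℝ) : ℂ) + (y : ℂ) * I).im = y := by simp
      have e5 : ‖((x - r : ℝ) : ℂ) + (y : ℂ) * I‖ ≤ 22 * r := by
        refine (Complex.norm_le_abs_re_add_abs_im _).trans ?_
        rw [e3, e4, abs_of_nonpos (by linarith)]
        have : |y| ≤ 21 * r := abs_le.2 ⟨hy1, hy2⟩
        linarith
      rw [e2, e3] at hg
      have h5 : ‖H (1 / 2 + I * t0 + (x + y * I))‖ ≤
          Real.exp (-(49 / 50 * a) + 22 * (a / 2500)) * N1 := by
        refine hg.trans ?_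
        rw [mul_comm, hN1]
        refine mul_le_mul_of_nonneg_right (Real.exp_le_exp.2 ?_) (norm_nonneg _)
        have q1 : A * (x - r) ≤ A * (-(49 / 50 * r)) :=
          mul_le_mul_of_nonneg_left (by linarith) hA.le
        have q2 : δ * ‖((x - r : ℝ) : ℂ) + (y : ℂ) * I‖ ≤ δ * (22 * r) :=
          mul_le_mul_of_nonneg_left e5 hδ0
        have q3 : A * (-(49 / 50 * r)) = -(49 / 50 * a) := by rw [← hrA]; ring
        linarith
      calc ‖H (1 / 2 + I * t0 + (x + y * I))‖ ^ 2 ≤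
            (Real.exp (-(49 / 50 * a) + 22 * (a / 2500)) * N1) ^ 2 := by gcongr
        _ = _ := by
            rw [mul_pow, ← Real.exp_nat_mul]
            push_cast
            rfl
    have hz : (1 / 2 + I * t0 + r * z : ℂ) =
        1 / 2 + I * t0 + (((r * z.re : ℝ) : ℂ) + ((r * z.im : ℝ) : ℂ) * I) := by
      apply Complex.ext <;> simp
    have hc := partC hL hLc hsym (fun s hs => (hH s hs).2.2) hC1 hsq hr0 M hM0 (Real.exp (ε * a)) hG2
      _ hBB (r * z.re) (r * z.im)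
      (by linarith [mul_le_mul_of_nonneg_left hz1.1 hr0.le])
      (by linarith [mul_le_mul_of_nonneg_left hz1.2 hr0.le])
      (by linarith [mul_le_mul_of_nonneg_left himz.1 hr0.le])
      (by linarith [mul_le_mul_of_nonneg_left himz.2 hr0.le])
    rw [← hz] at hc
    -- the value at 1
    have hF1 : ‖Lc (1 / 2 + I * t0 + r * 1)‖ = N1 * ‖Kf 1‖ := by
      rw [hFK 1 (by norm_num), norm_mul, mul_one]
    have hN : N1 ≤ 2 * ‖Lc (1 / 2 + I * t0 + r * 1)‖ * ‖M‖ := by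
      rw [hF1]
      rw [norm_mul] at hone
      have : N1 * (1 / 2) ≤ N1 * (‖Kf 1‖ * ‖M‖) :=
        mul_le_mul_of_nonneg_left hone (norm_nonneg _)
      linarith
    set F1 := ‖Lc (1 / 2 + I * t0 + r * 1)‖ with hF1d
    have hN2 : N1 ^ 2 ≤ 4 * F1 ^ 2 * ‖M‖ ^ 2 := by
      calc N1 ^ 2 ≤ (2 * F1 * ‖M‖) ^ 2 := by
            have : 0 ≤ N1 := norm_nonneg _
            gcongr
        _ = _ := by ring
    have hfin : ‖Lc (1 / 2 + I * t0 + r * z)‖ ^ 2 ≤ (F1 * Real.exp (-(9 / 10 * a))) ^ 2 := by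
      calc ‖Lc (1 / 2 + I * t0 + r * z)‖ ^ 2 ≤ _ := hc
        _ ≤ 20000 * C1 * (Real.exp (2 * (-(49 / 50 * a) + 22 * (a / 2500))) *
              (4 * F1 ^ 2 * ‖M‖ ^ 2)) * Real.exp (ε * a) / ‖M‖ ^ 2 := by gcongr
        _ = (80000 * C1) * (Real.exp (2 * (-(49 / 50 * a) + 22 * (a / 2500))) *
              Real.exp (ε * a)) * F1 ^ 2 := by
            field_simp
            ring
        _ ≤ Real.exp E0 * (Real.exp (2 * (-(49 / 50 * a) + 22 * (a / 2500))) *
              Real.exp (ε * a)) * F1 ^ 2 := by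
            gcongr
            rw [hE0]
            linarith
        _ = Real.exp (E0 + (2 * (-(49 / 50 * a) + 22 * (a / 2500)) + ε * a)) * F1 ^ 2 := by
            rw [← Real.exp_add, ← Real.exp_add]
        _ ≤ Real.exp (2 * (-(9 / 10 * a))) * F1 ^ 2 := by
            have h4 : ε * a ≤ 1 / 20 * a := by gcongr
            have h5 : E0 + (2 * (-(49 / 50 * a) + 22 * (a / 2500)) + ε * a) ≤
                2 * (-(9 / 10 * a)) := by
              linarith
            gcongr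
        _ = _ := by
            rw [mul_pow, ← Real.exp_nat_mul]
            push_cast
            ring
    exact (pow_le_pow_iff_left₀ (norm_nonneg _) (by positivity) two_ne_zero).1 hfin

/-! ## The mollifier -/

theorem MX_diff (θ : ℝ) (Q q : ℕ) (χ : DirichletCharacter ℂ q) : Differentiable ℂ (MX θ Q q χ) := by
  unfold MX
  apply Differentiable.fun_sum
  intro h hh
  have h0 : ((h : ℕ) : ℂ) ≠ 0 := by
    have := (Finset.mem_Icc.1 hh).1
    exact_mod_cast (by omega : h ≠ 0)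
  refine Differentiable.const_mul ?_ _
  intro s
  exact (differentiable_id.neg s).const_cpow (Or.inl h0)

theorem mo_le (θ L : ℝ) (h : ℕ) : |mo θ L h| ≤ 1 := by
  unfold mo ph
  rw [abs_mul]
  have h1 : |((ArithmeticFunction.moebius h : ℤ) : ℝ)| ≤ 1 := by
    have := ArithmeticFunction.abs_moebius_le_one (n := h)
    exact_mod_cast this
  have h2 : |Real.smoothTransition (2 - 2 * (Real.log h / (θ * L)))| ≤ 1 := by
    rw [abs_of_nonneg (Real.smoothTransition.nonneg _)]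
    exact Real.smoothTransition.le_one _
  exact mul_le_one₀ h1 (abs_nonneg _) h2

theorem MX_le {θ : ℝ} {Q q : ℕ} (χ : DirichletCharacter ℂ q) {s : ℂ} (hs : 0 ≤ s.re) :
    ‖MX θ Q q χ s‖ ≤ (yy θ Q : ℝ) := by
  unfold MX
  refine (norm_sum_le _ _).trans ?_
  have : ∀ h ∈ Finset.Icc 1 (yy θ Q),
      ‖(mo θ (Real.log Q) h : ℂ) * χ (h : ZMod q) * (h : ℂ) ^ (-s)‖ ≤ 1 := by
    intro h hh
    have h1 : 0 < h := (Finset.mem_Icc.1 hh).1
    rw [norm_mul, norm_mul, Complex.norm_real, Real.norm_eq_abs]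
    have h2 := mo_le θ (Real.log Q) h
    have h3 := χ.norm_le_one (h : ZMod q)
    have h4 : ‖(h : ℂ) ^ (-s)‖ ≤ 1 := by
      rw [Complex.norm_natCast_cpow_of_pos h1]
      apply Real.rpow_le_one_of_one_le_of_nonpos
      · exact_mod_cast h1
      · simpa using hs
    calc |mo θ (Real.log Q) h| * ‖χ (h : ZMod q)‖ * ‖(h : ℂ) ^ (-s)‖ ≤ 1 * 1 * 1 := by gcongr
      _ = 1 := by norm_num
  refine (Finset.sum_le_sum this).trans ?_
  simp

theorem c2w (hHG : S_HGw) (hSYM : S_SYM) (h1 : SSq) (h2 : SHar) : S_C2w := by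
  obtain ⟨C1, hC1, hsq⟩ := h1
  obtain ⟨C2, hC2, hhar⟩ := h2
  intro η hη
  set ε := min (1 / 20) (η / (2 * C2)) with hε
  have hε0 : 0 < ε := lt_min (by norm_num) (by positivity)
  have hε1 : ε ≤ 1 / 20 := min_le_left _ _
  have hε2 : C2 * ε ≤ η / 2 := by
    have h3 : ε ≤ η / (2 * C2) := min_le_right _ _
    calc C2 * ε ≤ C2 * (η / (2 * C2)) := by gcongr
      _ = η / 2 := by field_simp
  set η' := min (1 / 5000) (η / 8) with hη'
  have hη'0 : 0 < η' := lt_min (by norm_num) (by positivity)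
  have hη'1 : η' ≤ 1 / 5000 := min_le_left _ _
  have hη'2 : η' ≤ η / 8 := min_le_right _ _
  obtain ⟨c, Q1, hc0, hc1, hQ1, hHG'⟩ := hHG η' hη'0
  refine ⟨1 / (256000000 * C1), ε, c, by positivity, hε0, hc0, hc1, ?_⟩
  intro θ hθ hθ'
  set D := Real.log (1 + 2 * Real.sqrt (16000000 * C1)) with hD
  have hsq0 := Real.sqrt_nonneg (16000000 * C1)
  have hD0 : 0 ≤ D := Real.log_nonneg (by linarith)
  have hDe : Real.exp D = 1 + 2 * Real.sqrt (16000000 * C1) := Real.exp_log (by linarith)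
  set E0 := Real.log (1 + 80000 * C1) with hE0
  have hE0e : Real.exp E0 = 1 + 80000 * C1 := Real.exp_log (by positivity)
  refine ⟨max 1 (max (4 * C2 * D / η) (20 * E0)), max Q1 16, ?_⟩
  intro Q q a t0 hQ ha haL ht0 hq1 hq2 χ hχ hGd
  have ha1 : 1 ≤ a := (le_max_left _ _).trans ha
  have ha2 : 4 * C2 * D / η ≤ a := ((le_max_left _ _).trans (le_max_right _ _)).trans ha
  have ha3 : 20 * E0 ≤ a := ((le_max_right _ _).trans (le_max_right _ _)).trans ha
  have hQ1' : Q1 ≤ Q := (le_max_left _ _).trans hQ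
  have hQ16 : (16 : ℝ) ≤ Q := (le_max_right _ _).trans hQ
  have hQ0 : (0 : ℝ) < Q := by linarith
  have hQhalf : (4 : ℝ) ≤ (Q : ℝ) ^ (1 / 2 : ℝ) := by
    rw [← Real.sqrt_eq_rpow]
    apply Real.le_sqrt_of_sq_le
    linarith
  have hq2' : 2 ≤ q := by
    have h3 : (Q : ℝ) ^ (1 / 2 : ℝ) ≤ (Q : ℝ) ^ (1 - c) :=
      Real.rpow_le_rpow_of_exponent_le (by linarith) (by linarith)
    have h4 : (4 : ℝ) ≤ q := by linarith
    have h5 : 4 ≤ q := by exact_mod_cast h4
    omega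
  obtain ⟨H, hH, hlog⟩ := hHG' Q q hQ1' hq1 hq2 χ hχ
  obtain ⟨hLc, hL, hω⟩ := hSYM q hq2' χ hχ
  obtain ⟨ω0, hω0, hsy0⟩ := hω t0
  have hω00 : ω0 ≠ 0 := by
    intro h0
    rw [h0, norm_zero] at hω0
    norm_num at hω0
  have hsym : ∀ w : ℂ, ‖LC q χ (1 / 2 + I * t0 - (starRingEnd ℂ) w)‖ =
      ‖LC q χ (1 / 2 + I * t0 + w)‖ := by
    intro w
    have h3 := congrArg norm (hsy0 w)
    rw [Complex.norm_conj, norm_mul, norm_mul, hω0, one_mul, one_mul] at h3
    exact h3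
  set r := ra Q a with hrdef
  have hr_eq : r = a / (Real.log Q / 2) := rfl
  have hL0 : 0 < Real.log Q := by linarith
  have hr0 : 0 < r := by rw [hr_eq]; positivity
  have hr : r ≤ 1 / 5 := by rw [hr_eq, div_le_iff₀ (by positivity)]; linarith
  have hrA : r * (Real.log Q / 2) = a := by
    rw [hr_eq]
    field_simp
  obtain ⟨hG1, hG2⟩ := hGd
  rw [← hrdef] at hG1 hG2
  obtain ⟨cf, cn, clow⟩ := core (C1 := C1) (C2 := C2) hC1 hsq hC2 hhar hL (MX_diff θ Q q χ) hLc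
    (t0 := t0) (r := r) (a := a) (A := Real.log Q / 2) (δ := η' * Real.log Q) (ε := ε) (D := D)
    (η := η) (E0 := E0) hsym hH (by
      intro s hs1 hs2 hs3
      refine hlog s hs1 hs2 ?_
      have h3 : |s.im| ≤ |s.im - t0| + |t0| := by
        have := abs_add_le (s.im - t0) t0
        rwa [sub_add_cancel] at this
      linarith) hr0 hr (by linarith) hrA (by linarith) hε0 hε1 (by
      have h3 : η' * Real.log Q * r = η' * (2 * a) := by rw [← hrA]; ring
      rw [h3]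
      have := mul_le_mul_of_nonneg_right hη'1 (show 0 ≤ 2 * a by linarith)
      linarith) (by positivity) hDe hD0 hE0e ha3 (by
      have h3 : η' * Real.log Q * r = η' * (2 * a) := by rw [← hrA]; ring
      rw [h3]
      have h4 := mul_le_mul_of_nonneg_right hη'2 (show 0 ≤ 2 * a by linarith)
      have h5 := mul_le_mul_of_nonneg_right hε2 (show 0 ≤ a / 2 by linarith)
      rw [div_le_iff₀ hη] at ha2
      have h6 : 0 ≤ η * a := mul_nonneg hη.le (by linarith)
      linarith) hG1 hG2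
  refine ⟨?_, ?_⟩
  · intro ω hω1 hsy
    have hωne : ω ≠ 0 := by
      intro h0
      rw [h0, norm_zero] at hω1
      norm_num at hω1
    refine ⟨?_, ?_, ?_, ?_⟩
    · have h3 : Differentiable ℂ (fun z : ℂ => 1 / 2 + I * t0 + ((r : ℝ) : ℂ) * z) := by fun_prop
      exact (hLc.comp h3).const_mul ω
    · intro z
      have h3 := hsy (r * z)
      have h4 : (1 / 2 + I * t0 - (starRingEnd ℂ) ((r : ℂ) * z) : ℂ) =
          1 / 2 + I * t0 + r * (-(starRingEnd ℂ) z) := by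
        rw [map_mul, conj_ofReal]
        ring
      rw [h4] at h3
      exact h3
    · intro z hz1 hz2
      obtain ⟨k1, k2⟩ := cf z hz1 hz2
      refine ⟨mul_ne_zero hωne k1, ?_⟩
      rw [show (fun z : ℂ => ω * LC q χ (1 / 2 + I * t0 + ((ra Q a : ℝ) : ℂ) * z)) =
        fun z : ℂ => ω * (fun z : ℂ => LC q χ (1 / 2 + I * t0 + ((r : ℝ) : ℂ) * z)) z from rfl,
        logDeriv_const_mul _ _ hωne]
      exact k2
    · intro z hz1 hz2
      have k := cn z hz1 hz2
      show ‖ω * _‖ ≤ ‖ω * _‖ * _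
      rw [norm_mul, norm_mul, hω1, one_mul, one_mul]
      exact k
  · rw [mul_one, norm_mul] at clow
    have h3 : ‖MX θ Q q χ (1 / 2 + r + t0 * I)‖ ≤ (yy θ Q : ℝ) := MX_le χ (by
      simp
      positivity)
    have h4 : (yy θ Q : ℝ) ≤ 2 * (Q : ℝ) ^ (1 / 2 : ℝ) / 4 * (Q : ℝ) ^ (1 / 2 : ℝ) := by
      have h5 : (yy θ Q : ℝ) ≤ (Q : ℝ) ^ θ + 1 := by
        unfold yy
        exact (Nat.ceil_lt_add_one (by positivity)).le
      have h6 : (Q : ℝ) ^ θ ≤ (Q : ℝ) ^ (1 / 2 : ℝ) :=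
        Real.rpow_le_rpow_of_exponent_le (by linarith) (by linarith)
      nlinarith
    have h7 : (Q : ℝ) ^ (1 / 2 : ℝ) * (Q : ℝ) ^ (1 / 2 : ℝ) = Q := by
      rw [← Real.rpow_add hQ0]
      norm_num
    have h8 : (yy θ Q : ℝ) ≤ Q / 2 := by
      have : 2 * (Q : ℝ) ^ (1 / 2 : ℝ) / 4 * (Q : ℝ) ^ (1 / 2 : ℝ) =
        ((Q : ℝ) ^ (1 / 2 : ℝ) * (Q : ℝ) ^ (1 / 2 : ℝ)) / 2 := by ring
      rw [this, h7] at h4
      exact h4
    have h9 : 1 / 2 ≤ ‖LF q χ (1 / 2 + I * t0 + r)‖ * (Q / 2) :=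
      clow.trans (mul_le_mul_of_nonneg_left (h3.trans h8) (norm_nonneg _))
    show (Q : ℝ)⁻¹ ≤ ‖LF q χ (1 / 2 + I * t0 + ((r : ℝ) : ℂ))‖
    rw [inv_le_iff_one_le_mul₀ hQ0]
    linarith

end Pool.Agent.W169.AF.C2W
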