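import Pool.Agent.W169.AF.Stm

set_option autoImplicit false

/-!
Project AF (helper169), wide versions: the same statements with wider ranges, which give the zeros in
the whole critical strip.
-/

namespace Pool.Agent.W169.AF

open Finset Filter Topology MeasureTheory
open Pool.Agent.H24R2.DZ (NN bb mo cc yy ra SSq SHar SMo)

noncomputable section

/-- part APXw (S_APX with `Re s ≤ 7`, `‖β‖ ≤ 13` and exponent `-1/6`) -/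
def S_APXw : Prop := ∃ C : ℝ, 0 < C ∧ ∀ θ : ℝ, 0 < θ → θ ≤ 1 / 200 → ∀ Q q : ℕ, 2 ≤ q → q ≤ Q →
  ∀ χ ∈ PC q, ∀ s β : ℂ, 1 / 2 ≤ s.re → s.re ≤ 7 → ‖β‖ ≤ 13 →
    ‖LF q χ s * MX θ Q q χ (s + β) - SX θ Q q χ s β‖ ≤ C * (1 + ‖s‖) * (Q : ℝ) ^ (-(1 / 6) : ℝ)

/-- part MV1w (S_MV1 with `Re s ≤ 7`) -/
def S_MV1w : Prop := ∀ θ : ℝ, 0 < θ → θ ≤ 1 / 200 → ∃ C Q0 : ℝ, 0 < C ∧ 2 ≤ Q0 ∧ ∀ Q : ℕ, Q0 ≤ Q →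
  ∀ s : ℂ, 1 / 2 ≤ s.re → s.re ≤ 7 → ‖s‖ ≤ (Q : ℝ) ^ (1 / 20 : ℝ) →
    FS Q (fun q χ => ‖LF q χ s * MX θ Q q χ s - 1‖ ^ 2) ≤
      C * (Q : ℝ) ^ 2 * Real.exp (-(θ * (s.re - 1 / 2) * Real.log Q))

/-- part MV2w (S_MV2 with `Re s ≤ 7`, `‖β‖ ≤ 13`) -/
def S_MV2w : Prop := ∀ θ : ℝ, 0 < θ → θ ≤ 1 / 200 → ∃ C Q0 : ℝ, 0 < C ∧ 2 ≤ Q0 ∧ ∀ Q : ℕ, Q0 ≤ Q →
  ∀ s β : ℂ, 1 / 2 ≤ s.re → s.re ≤ 7 → ‖β‖ ≤ 13 → ‖s‖ ≤ (Q : ℝ) ^ (1 / 20 : ℝ) →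
    FS Q (fun q χ => ‖LF q χ s * MX θ Q q χ (s + β)‖ ^ 2) ≤
      C * (Q : ℝ) ^ 2 * (1 + Real.log Q * ‖β‖) ^ 20 * Real.exp (2 * θ * Real.log Q * ‖β‖)

/-- part C1w (S_C1 with `a ≤ log Q / 10`) -/
def S_C1w : Prop := ∀ η ε : ℝ, 0 < η → 0 < ε → ∃ θ c C a0 Q0 : ℝ, 0 < θ ∧ θ ≤ 1 / 200 ∧ 0 < c ∧ 0 < C ∧
  1 ≤ a0 ∧ 2 ≤ Q0 ∧ ∀ (Q : ℕ) (a t0 : ℝ), Q0 ≤ Q → a0 ≤ a → a ≤ Real.log Q / 10 →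
    |t0| ≤ (Q : ℝ) ^ (1 / 30 : ℝ) →
    cnt Q (fun q χ => ¬ Gd θ η ε Q a t0 q χ) ≤ C * (Q : ℝ) ^ 2 * Real.exp (-(c * a))

/-- part HGw (S_HG with `1/4 ≤ Re s ≤ 7`, `|Im s| ≤ Q^c + 7`) -/
def S_HGw : Prop := ∀ η : ℝ, 0 < η → ∃ c Q0 : ℝ, 0 < c ∧ c ≤ 1 / 30 ∧ 2 ≤ Q0 ∧ ∀ Q q : ℕ, Q0 ≤ Q →
  (Q : ℝ) ^ (1 - c) ≤ q → q ≤ Q → ∀ χ ∈ PC q, ∃ H : ℂ → ℂ,
    (∀ s : ℂ, 0 < s.re → DifferentiableAt ℂ H s ∧ H s ≠ 0 ∧ LC q χ s = H s * LF q χ s) ∧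
    ∀ s : ℂ, 1 / 4 ≤ s.re → s.re ≤ 7 → |s.im| ≤ (Q : ℝ) ^ c + 7 →
      ‖logDeriv H s - ((Real.log Q / 2 : ℝ) : ℂ)‖ ≤ η * Real.log Q

/-- part C2w (S_C2 with `a ≤ log Q / 10`) -/
def S_C2w : Prop := ∀ η : ℝ, 0 < η → ∃ η1 ε1 c : ℝ, 0 < η1 ∧ 0 < ε1 ∧ 0 < c ∧ c ≤ 1 / 30 ∧
  ∀ θ : ℝ, 0 < θ → θ ≤ 1 / 200 → ∃ a0 Q0 : ℝ, ∀ (Q q : ℕ) (a t0 : ℝ), Q0 ≤ Q → a0 ≤ a →
    a ≤ Real.log Q / 10 → |t0| ≤ (Q : ℝ) ^ c → (Q : ℝ) ^ (1 - c) ≤ q → q ≤ Q → ∀ χ ∈ PC q,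
      Gd θ η1 ε1 Q a t0 q χ → NNx η Q a t0 q χ

/-- part NQw (S_NQ with `a ≤ log Q / 10`) -/
def S_NQw : Prop := ∀ η : ℝ, 0 < η → ∃ C c a0 Q0 : ℝ, 0 < C ∧ 0 < c ∧ c ≤ 1 / 30 ∧ 1 ≤ a0 ∧ 2 ≤ Q0 ∧
  ∀ (Q : ℕ) (a t0 : ℝ), Q0 ≤ Q → a0 ≤ a → a ≤ Real.log Q / 10 → |t0| ≤ (Q : ℝ) ^ c →
    cnt Q (fun q χ => ¬ NNx η Q a t0 q χ) ≤ C * (Q : ℝ) ^ 2 * Real.exp (-(c * a))

/-- All zeros in the critical strip `|Re s - 1/2| ≤ 1/2` with `|Im s - t0| ≤ c n / log Q` of the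
`n`-th derivative of `Λ_χ`, `R ≤ n ≤ c log Q`, are simple and lie on the critical line. -/
def DerGoodw (c : ℝ) (Q : ℕ) (R t0 : ℝ) (q : ℕ) (χ : DirichletCharacter ℂ q) : Prop :=
  ∀ n : ℕ, R ≤ n → (n : ℝ) ≤ c * Real.log Q → ∀ s : ℂ, |s.re - 1 / 2| ≤ 1 / 2 →
    |s.im - t0| ≤ c * n / Real.log Q → iteratedDeriv n (LC q χ) s = 0 →
      s.re = 1 / 2 ∧ iteratedDeriv (n + 1) (LC q χ) s ≠ 0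

/-- the theorem on derivatives, whole strip -/
def S_DERw : Prop := ∃ C c : ℝ, 0 < C ∧ 0 < c ∧ ∀ (Q : ℕ) (R t0 : ℝ), 2 ≤ Q → 0 ≤ R →
  |t0| ≤ (Q : ℝ) ^ c →
    cnt Q (fun q χ => ¬ DerGoodw c Q R t0 q χ) ≤ C * (Q : ℝ) ^ 2 * Real.exp (-(c * R))

/-- All zeros in the critical strip `|Re s - 1/2| ≤ 1/2` with `|Im s - t0| ≤ c t log Q` of the heat
flow of `Λ_χ` at time `t` are simple and lie on the critical line. -/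
def HeatGoodw (c t : ℝ) (Q : ℕ) (t0 : ℝ) (q : ℕ) (χ : DirichletCharacter ℂ q) : Prop :=
  ∀ s : ℂ, |s.re - 1 / 2| ≤ 1 / 2 → |s.im - t0| ≤ c * t * Real.log Q →
    HFl t (LC q χ) s = 0 → s.re = 1 / 2 ∧ deriv (HFl t (LC q χ)) s ≠ 0

/-- part HEATw: the theorem on the heat flow, whole strip -/
def S_HEATw : Prop := ∀ B : ℝ, 0 ≤ B → ∃ C c : ℝ, 0 < C ∧ 0 < c ∧ ∀ (Q : ℕ) (t t0 : ℝ), 2 ≤ Q →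
  0 < t → t * Real.log Q ≤ c → |t0| ≤ B →
    cnt Q (fun q χ => ¬ HeatGoodw c t Q t0 q χ) ≤
      C * (Q : ℝ) ^ 2 * Real.exp (-(c * t * Real.log Q ^ 2))

end

end Pool.Agent.W169.AF
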