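import Pool.Agent.W169.AF.Der
import Pool.Agent.W169.AF.Stm2

set_option autoImplicit false

/-! Project AF: part NQw and the theorem on derivatives in the whole strip. -/

namespace Pool.Agent.W169.AF

open Finset Filter Topology MeasureTheory
open Pool.Agent.H24R2.DZ (NN ra)

noncomputable section

/-- part NQw -/
theorem nqw (h1 : S_C1w) (h2 : S_C2w) : S_NQw := by
  intro η hη
  obtain ⟨η1, ε1, c2, hη1, hε1, hc2, hc2', H2⟩ := h2 η hη
  obtain ⟨θ, c1, C1, a1, Q1, hθ, hθ', hc1, hC1, ha1, hQ1, H1⟩ := h1 η1 ε1 hη1 hε1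
  obtain ⟨a2, Q2, H2⟩ := H2 θ hθ hθ'
  refine ⟨C1 + 1, min c1 c2, max a1 a2, max Q1 Q2, by linarith, lt_min hc1 hc2,
    (min_le_right _ _).trans hc2', le_max_of_le_left ha1, le_max_of_le_left hQ1, ?_⟩
  intro Q a t0 hQ ha haL ht
  have hQ2 : (2 : ℝ) ≤ Q := hQ1.trans ((le_max_left _ _).trans hQ)
  have hQ0 : (0 : ℝ) < Q := by linarith
  have hQ1' : (1 : ℝ) ≤ Q := by linarith
  have ha0 : 1 ≤ a := ha1.trans ((le_max_left _ _).trans ha)
  have ht1 : |t0| ≤ (Q : ℝ) ^ (1 / 30 : ℝ) :=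
    ht.trans (Real.rpow_le_rpow_of_exponent_le hQ1' ((min_le_right _ _).trans hc2'))
  have ht2 : |t0| ≤ (Q : ℝ) ^ c2 :=
    ht.trans (Real.rpow_le_rpow_of_exponent_le hQ1' (min_le_right _ _))
  have hA := H1 Q a t0 ((le_max_left _ _).trans hQ) ((le_max_left _ _).trans ha) haL ht1
  have hB : cnt Q (fun q _ => (q : ℝ) < (Q : ℝ) ^ (1 - c2)) ≤ Q * (Q : ℝ) ^ (1 - c2) :=
    cnt_small (Real.rpow_nonneg hQ0.le _)
  have hC : cnt Q (fun q χ => ¬ NNx η Q a t0 q χ) ≤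
      cnt Q (fun q χ => ¬ Gd θ η1 ε1 Q a t0 q χ) + cnt Q (fun q _ => (q : ℝ) < (Q : ℝ) ^ (1 - c2)) := by
    apply cnt_union
    intro q hq1 hq2 χ hχ hn
    by_contra hcon
    push Not at hcon
    exact hn (H2 Q q a t0 ((le_max_right _ _).trans hQ) ((le_max_right _ _).trans ha) haL ht2
      hcon.2 hq2 χ hχ hcon.1)
  have hL : a ≤ Real.log Q := by
    have : 0 ≤ Real.log Q := Real.log_nonneg hQ1'
    linarith
  have hD : (Q : ℝ) * (Q : ℝ) ^ (1 - c2) ≤ (Q : ℝ) ^ 2 * Real.exp (-(min c1 c2 * a)) := by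
    have e1 : (Q : ℝ) * (Q : ℝ) ^ (1 - c2) = (Q : ℝ) ^ 2 * Real.exp (-(c2 * Real.log Q)) := by
      have e2 : (Q : ℝ) ^ (1 - c2) = Q * Real.exp (-(c2 * Real.log Q)) := by
        rw [Real.rpow_def_of_pos hQ0]
        have : Real.log Q * (1 - c2) = Real.log Q + -(c2 * Real.log Q) := by ring
        rw [this, Real.exp_add, Real.exp_log hQ0]
      rw [e2]; ring
    rw [e1]
    apply mul_le_mul_of_nonneg_left _ (by positivity)
    apply Real.exp_le_exp.2
    have h3 : min c1 c2 * a ≤ c2 * Real.log Q :=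
      mul_le_mul (min_le_right _ _) hL (by linarith) hc2.le
    linarith
  have hE : C1 * (Q : ℝ) ^ 2 * Real.exp (-(c1 * a)) ≤ C1 * (Q : ℝ) ^ 2 * Real.exp (-(min c1 c2 * a)) := by
    apply mul_le_mul_of_nonneg_left _ (by positivity)
    apply Real.exp_le_exp.2
    have : min c1 c2 * a ≤ c1 * a := mul_le_mul_of_nonneg_right (min_le_left _ _) (by linarith)
    linarith
  calc cnt Q (fun q χ => ¬ NNx η Q a t0 q χ) ≤ _ := hC
    _ ≤ C1 * (Q : ℝ) ^ 2 * Real.exp (-(min c1 c2 * a)) +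
        (Q : ℝ) ^ 2 * Real.exp (-(min c1 c2 * a)) := add_le_add (hA.trans hE) (hB.trans hD)
    _ = (C1 + 1) * (Q : ℝ) ^ 2 * Real.exp (-(min c1 c2 * a)) := by ring


/-- one good character -/
theorem der_onew {η : ℝ} {n0 : ℕ}
    (hloc : ∀ (n J : ℕ) (G : ℂ → ℂ), n0 ≤ n → Differentiable ℂ G →
      (∀ j : ℕ, j ≤ J → NN (2 ^ j * n) η (fun z => G (2 * (2 ^ j * n) * z))) →
      ∀ z : ℂ, |z.re| ≤ 10 * 2 ^ J * n → |z.im| ≤ n / 50 → iteratedDeriv n G z = 0 →
        z.re = 0 ∧ iteratedDeriv (n + 1) G z ≠ 0)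
    (hSYM : S_SYM) {Q : ℕ} {t0 : ℝ} {n : ℕ} (hL : 0 < Real.log Q) (hn0 : n0 ≤ n) (hn1 : 1 ≤ n)
    (hn : (n : ℝ) ≤ Real.log Q / 10) {q : ℕ} (hq : 2 ≤ q) {χ : DirichletCharacter ℂ q}
    (hχ : χ ∈ PC q)
    (hgood : ∀ m : ℕ, n ≤ m → (m : ℝ) ≤ Real.log Q / 10 → NNx η Q m t0 q χ) :
    ∀ s : ℂ, |s.re - 1 / 2| ≤ 1 / 2 → |s.im - t0| ≤ 1 / 50 * n / Real.log Q →
      iteratedDeriv n (LC q χ) s = 0 → s.re = 1 / 2 ∧ iteratedDeriv (n + 1) (LC q χ) s ≠ 0 := by
  classical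
  obtain ⟨hd, -, hω⟩ := hSYM q hq χ hχ
  obtain ⟨ω, hω1, hω2⟩ := hω t0
  set L := Real.log Q with hLd
  have hLc : (L : ℂ) ≠ 0 := by exact_mod_cast hL.ne'
  have hω0 : ω ≠ 0 := by
    intro h
    rw [h, norm_zero] at hω1
    exact one_ne_zero hω1.symm
  have hnpos : (0 : ℝ) < n := by exact_mod_cast hn1
  -- the largest scale
  have hex : ∃ j : ℕ, L / 10 < 2 ^ j * n := by
    obtain ⟨j, hj⟩ := pow_unbounded_of_one_lt (L / 10) (one_lt_two)
    refine ⟨j, hj.trans_le ?_⟩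
    exact le_mul_of_one_le_right (by positivity) (by exact_mod_cast hn1)
  set k := Nat.find hex with hk
  have hk1 : L / 10 < 2 ^ k * n := Nat.find_spec hex
  have hk0 : k ≠ 0 := by
    intro h
    rw [h] at hk1
    simp at hk1
    linarith
  obtain ⟨J, hJ⟩ := Nat.exists_eq_succ_of_ne_zero hk0
  have hJ1 : (2 : ℝ) ^ J * n ≤ L / 10 := by
    have := Nat.find_min hex (m := J) (by omega)
    exact not_lt.1 this
  have hJ2 : L / 10 < 2 * (2 ^ J * n) := by
    have : (2 : ℝ) ^ k * n = 2 * (2 ^ J * n) := by rw [hJ, pow_succ]; ring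
    linarith
  set G : ℂ → ℂ := fun z => ω * LC q χ ((1 / 2 + Complex.I * t0) + (L : ℂ)⁻¹ * z) with hG
  have hGd : Differentiable ℂ G := by
    have : Differentiable ℂ (fun z : ℂ => (1 / 2 + Complex.I * t0) + (L : ℂ)⁻¹ * z) := by fun_prop
    exact (hd.comp this).const_mul ω
  have hNN : ∀ j : ℕ, j ≤ J → NN (2 ^ j * n) η (fun z => G (2 * (2 ^ j * n) * z)) := by
    intro j hj
    have h1 : ((2 ^ j * n : ℕ) : ℝ) = 2 ^ j * n := by push_cast; ring
    have h2 : (2 : ℝ) ^ j * n ≤ 2 ^ J * n :=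
      mul_le_mul_of_nonneg_right (pow_le_pow_right₀ (by norm_num) hj) hnpos.le
    have h3 := (hgood (2 ^ j * n) (Nat.le_mul_of_pos_left n (by positivity)) (by
      rw [h1]; exact h2.trans hJ1)).1 ω hω1 hω2
    rw [h1] at h3
    convert h3 using 1
    funext z
    simp only [hG]
    congr 2
    unfold ra
    rw [← hLd]
    push_cast
    field_simp
  intro s hs1 hs2 hs3
  set z : ℂ := (L : ℂ) * (s - (1 / 2 + Complex.I * t0)) with hz
  have hsz : (1 / 2 + Complex.I * t0) + (L : ℂ)⁻¹ * z = s := by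
    rw [hz, ← mul_assoc, inv_mul_cancel₀ hLc, one_mul]; ring
  have hi : ∀ m : ℕ, iteratedDeriv m G z = ω * (((L : ℂ)⁻¹) ^ m * iteratedDeriv m (LC q χ) s) := by
    intro m
    rw [hG, iter_scale hd, hsz]
  have hre : z.re = L * (s.re - 1 / 2) := by
    rw [hz, Complex.re_ofReal_mul]
    simp
  have him : z.im = L * (s.im - t0) := by
    rw [hz, Complex.im_ofReal_mul]
    simp
  have h1 : |z.re| ≤ 10 * 2 ^ J * n := by
    rw [hre, abs_mul, abs_of_pos hL]
    have : L * |s.re - 1 / 2| ≤ L * (1 / 2) := mul_le_mul_of_nonneg_left hs1 hL.le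
    linarith
  have h2 : |z.im| ≤ n / 50 := by
    rw [him, abs_mul, abs_of_pos hL]
    calc L * |s.im - t0| ≤ L * (1 / 50 * n / L) := mul_le_mul_of_nonneg_left hs2 hL.le
      _ = n / 50 := by field_simp
  obtain ⟨h3, h4⟩ := hloc n J G hn0 hGd hNN z h1 h2 (by rw [hi, hs3]; ring)
  refine ⟨?_, ?_⟩
  · rw [hre] at h3
    rcases mul_eq_zero.1 h3 with h | h
    · exact absurd h hL.ne'
    · linarith
  · intro h
    apply h4
    rw [hi, h]; ring


/-- most characters are good at all natural scales between `R` and `log Q / 10` -/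
theorem scalesw (hNQ : S_NQw) {η : ℝ} (hη : 0 < η) : ∃ C c : ℝ, 0 < C ∧ 0 < c ∧ c ≤ 1 / 30 ∧
    ∀ (Q : ℕ) (R t0 : ℝ), 2 ≤ Q → 0 ≤ R → R ≤ Real.log Q → |t0| ≤ (Q : ℝ) ^ c →
      cnt Q (fun q χ => ∃ m : ℕ, R ≤ m ∧ (m : ℝ) ≤ Real.log Q / 10 ∧ ¬ NNx η Q m t0 q χ) ≤
        C * (Q : ℝ) ^ 2 * Real.exp (-(c * R)) := by
  classical
  obtain ⟨C, c, a0, Q0, hC, hc, hc', ha0, hQ0, H⟩ := hNQ η hη
  have hr : Real.exp (-c) < 1 := by
    rw [Real.exp_lt_one_iff]
    linarith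
  have hr' : 0 < 1 - Real.exp (-c) := by linarith
  refine ⟨Real.exp (c * (a0 + Real.log Q0)) + C / (1 - Real.exp (-c)), c, by positivity, hc, hc', ?_⟩
  intro Q R t0 hQ hR hRL ht
  have hQ2 : (2 : ℝ) ≤ Q := by exact_mod_cast hQ
  have hQp : (0 : ℝ) < Q := by linarith
  have hlQ0 : 0 ≤ Real.log Q0 := Real.log_nonneg (by linarith)
  have htriv : R ≤ a0 + Real.log Q0 →
      cnt Q (fun q χ => ∃ m : ℕ, R ≤ m ∧ (m : ℝ) ≤ Real.log Q / 10 ∧ ¬ NNx η Q m t0 q χ) ≤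
        (Real.exp (c * (a0 + Real.log Q0)) + C / (1 - Real.exp (-c))) * (Q : ℝ) ^ 2 *
          Real.exp (-(c * R)) := by
    intro h
    have h1 : 1 ≤ Real.exp (c * (a0 + Real.log Q0)) * Real.exp (-(c * R)) := by
      rw [← Real.exp_add]
      apply Real.one_le_exp
      have := mul_le_mul_of_nonneg_left h hc.le
      linarith
    have h2 : 0 < C / (1 - Real.exp (-c)) := by positivity
    calc _ ≤ (Q : ℝ) ^ 2 := cnt_le _ _
      _ = 1 * (Q : ℝ) ^ 2 := by ring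
      _ ≤ (Real.exp (c * (a0 + Real.log Q0)) * Real.exp (-(c * R))) * (Q : ℝ) ^ 2 :=
          mul_le_mul_of_nonneg_right h1 (by positivity)
      _ ≤ (Real.exp (c * (a0 + Real.log Q0)) * Real.exp (-(c * R))) * (Q : ℝ) ^ 2 +
          C / (1 - Real.exp (-c)) * (Q : ℝ) ^ 2 * Real.exp (-(c * R)) :=
          le_add_of_nonneg_right (by positivity)
      _ = _ := by ring
  rcases le_or_gt R a0 with h | h
  · exact htriv (by linarith)
  rcases lt_or_ge (Q : ℝ) Q0 with hQs | hQl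
  · apply htriv
    have := Real.log_le_log hQp hQs.le
    linarith
  · -- the main case
    have hR0 : R ≤ ⌈R⌉₊ := Nat.le_ceil R
    have h1 : cnt Q (fun q χ => ∃ m : ℕ, R ≤ m ∧ (m : ℝ) ≤ Real.log Q / 10 ∧ ¬ NNx η Q m t0 q χ) ≤
        ∑ m ∈ (Finset.Icc ⌈R⌉₊ ⌊Real.log Q⌋₊).filter (fun m : ℕ => (m : ℝ) ≤ Real.log Q / 10),
          cnt Q (fun q χ => ¬ NNx η Q m t0 q χ) := by
      apply cnt_finset
      rintro q hq1 hq2 χ hχ ⟨m, hm1, hm2, hm3⟩
      refine ⟨m, ?_, hm3⟩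
      rw [Finset.mem_filter, Finset.mem_Icc]
      refine ⟨⟨Nat.ceil_le.2 hm1, Nat.le_floor ?_⟩, hm2⟩
      have : 0 ≤ Real.log Q := Real.log_nonneg (by linarith)
      linarith
    have h2 : ∑ m ∈ (Finset.Icc ⌈R⌉₊ ⌊Real.log Q⌋₊).filter (fun m : ℕ => (m : ℝ) ≤ Real.log Q / 10),
          cnt Q (fun q χ => ¬ NNx η Q m t0 q χ) ≤
        ∑ m ∈ (Finset.Icc ⌈R⌉₊ ⌊Real.log Q⌋₊).filter (fun m : ℕ => (m : ℝ) ≤ Real.log Q / 10),
          C * (Q : ℝ) ^ 2 * Real.exp (-(c * m)) := by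
      apply Finset.sum_le_sum
      intro m hm
      rw [Finset.mem_filter, Finset.mem_Icc] at hm
      obtain ⟨⟨hm1, -⟩, hm2⟩ := hm
      have hm3 : (⌈R⌉₊ : ℝ) ≤ m := by exact_mod_cast hm1
      exact H Q m t0 hQl (by linarith) hm2 ht
    have h3 : ∑ m ∈ (Finset.Icc ⌈R⌉₊ ⌊Real.log Q⌋₊).filter (fun m : ℕ => (m : ℝ) ≤ Real.log Q / 10),
          C * (Q : ℝ) ^ 2 * Real.exp (-(c * m)) ≤
        ∑ m ∈ Finset.Icc ⌈R⌉₊ ⌊Real.log Q⌋₊, C * (Q : ℝ) ^ 2 * Real.exp (-(c * m)) :=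
      Finset.sum_le_sum_of_subset_of_nonneg (Finset.filter_subset _ _)
        (fun _ _ _ => by positivity)
    have h4 := geo hc ⌈R⌉₊ ⌊Real.log Q⌋₊
    have h5 : Real.exp (-(c * (⌈R⌉₊ : ℝ))) ≤ Real.exp (-(c * R)) := by
      apply Real.exp_le_exp.2
      have := mul_le_mul_of_nonneg_left hR0 hc.le
      linarith
    calc _ ≤ _ := h1
      _ ≤ _ := h2
      _ ≤ _ := h3
      _ = C * (Q : ℝ) ^ 2 * ∑ m ∈ Finset.Icc ⌈R⌉₊ ⌊Real.log Q⌋₊, Real.exp (-(c * m)) := by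
          rw [Finset.mul_sum]
      _ ≤ C * (Q : ℝ) ^ 2 * (Real.exp (-(c * (⌈R⌉₊ : ℝ))) / (1 - Real.exp (-c))) :=
          mul_le_mul_of_nonneg_left h4 (by positivity)
      _ ≤ C * (Q : ℝ) ^ 2 * (Real.exp (-(c * R)) / (1 - Real.exp (-c))) := by
          apply mul_le_mul_of_nonneg_left _ (by positivity)
          exact div_le_div_of_nonneg_right h5 hr'.le
      _ = C / (1 - Real.exp (-c)) * (Q : ℝ) ^ 2 * Real.exp (-(c * R)) := by ring
      _ ≤ (Real.exp (c * (a0 + Real.log Q0)) + C / (1 - Real.exp (-c))) * (Q : ℝ) ^ 2 *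
          Real.exp (-(c * R)) := by
          apply mul_le_mul_of_nonneg_right _ (Real.exp_pos _).le
          apply mul_le_mul_of_nonneg_right _ (by positivity)
          linarith [Real.exp_pos (c * (a0 + Real.log Q0))]

/-- part DER -/
theorem derw (hNQ : S_NQw) (hLOC : S_LOC) (hSYM : S_SYM) : S_DERw := by
  classical
  obtain ⟨η, n0, hη, hloc⟩ := hLOC
  obtain ⟨C, c, hC, hc, hc30, H⟩ := scalesw hNQ hη
  set c' := min c (1 / 50) with hc'd
  have hc' : 0 < c' := lt_min hc (by norm_num)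
  have hc'c : c' ≤ c := min_le_left _ _
  have hc'2 : c' ≤ 1 / 50 := min_le_right _ _
  set N0 : ℝ := max n0 1 with hN0
  have hN01 : 1 ≤ N0 := le_max_right _ _
  refine ⟨Real.exp (c * N0) + C, c', by positivity, hc', ?_⟩
  intro Q R t0 hQ hR ht
  have hQ2 : (2 : ℝ) ≤ Q := by exact_mod_cast hQ
  have hQp : (0 : ℝ) < Q := by linarith
  have hL : 0 < Real.log Q := Real.log_pos (by linarith)
  have ht' : |t0| ≤ (Q : ℝ) ^ c :=
    ht.trans (Real.rpow_le_rpow_of_exponent_le (by linarith) hc'c)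
  rcases lt_or_ge (c' * Real.log Q) R with h | h
  · -- vacuous
    refine (cnt_false ?_).trans (by positivity)
    intro q hq1 hq2 χ hχ hn
    apply hn
    intro n hn1 hn2
    exfalso
    linarith
  · have hRL : R ≤ Real.log Q := by
      have : c' * Real.log Q ≤ 1 * Real.log Q := mul_le_mul_of_nonneg_right (by linarith) hL.le
      linarith
    rcases lt_or_ge R N0 with h1 | h1
    · have h2 : 1 ≤ Real.exp (c * N0) * Real.exp (-(c' * R)) := by
        rw [← Real.exp_add]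
        apply Real.one_le_exp
        have : c' * R ≤ c * N0 := mul_le_mul hc'c h1.le hR hc.le
        linarith
      calc _ ≤ (Q : ℝ) ^ 2 := cnt_le _ _
        _ = 1 * (Q : ℝ) ^ 2 := by ring
        _ ≤ (Real.exp (c * N0) * Real.exp (-(c' * R))) * (Q : ℝ) ^ 2 :=
            mul_le_mul_of_nonneg_right h2 (by positivity)
        _ ≤ (Real.exp (c * N0) * Real.exp (-(c' * R))) * (Q : ℝ) ^ 2 +
            C * (Q : ℝ) ^ 2 * Real.exp (-(c' * R)) := le_add_of_nonneg_right (by positivity)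
        _ = _ := by ring
    · have h2 : cnt Q (fun q χ => ¬ DerGoodw c' Q R t0 q χ) ≤
          cnt Q (fun q χ => ∃ m : ℕ, R ≤ m ∧ (m : ℝ) ≤ Real.log Q / 10 ∧ ¬ NNx η Q m t0 q χ) := by
        apply cnt_mono
        intro q hq1 hq2 χ hχ hn
        by_contra hcon
        push Not at hcon
        apply hn
        intro n hn1 hn2 s hs1 hs2 hs3
        have hnR : N0 ≤ n := h1.trans hn1
        have hnn0 : n0 ≤ n := by
          have : (n0 : ℝ) ≤ n := (le_max_left _ _).trans hnR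
          exact_mod_cast this
        have hn1' : 1 ≤ n := by
          have : (1 : ℝ) ≤ n := hN01.trans hnR
          exact_mod_cast this
        have hn200 : (n : ℝ) ≤ Real.log Q / 10 := by
          have : c' * Real.log Q ≤ 1 / 50 * Real.log Q := mul_le_mul_of_nonneg_right hc'2 hL.le
          linarith
        refine der_onew (t0 := t0) hloc hSYM hL hnn0 hn1' hn200 hq1 hχ ?_ s (by linarith) ?_ hs3
        · intro m hm1 hm2
          have : (n : ℝ) ≤ m := by exact_mod_cast hm1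
          exact hcon m (hn1.trans this) hm2
        · refine hs2.trans ?_
          have hnn : (0 : ℝ) ≤ n := Nat.cast_nonneg _
          gcongr
      calc _ ≤ _ := h2
        _ ≤ C * (Q : ℝ) ^ 2 * Real.exp (-(c * R)) := H Q R t0 hQ hR hRL ht'
        _ ≤ C * (Q : ℝ) ^ 2 * Real.exp (-(c' * R)) := by
            apply mul_le_mul_of_nonneg_left _ (by positivity)
            apply Real.exp_le_exp.2
            have := mul_le_mul_of_nonneg_right hc'c hR
            linarith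
        _ ≤ (Real.exp (c * N0) + C) * (Q : ℝ) ^ 2 * Real.exp (-(c' * R)) := by
            apply mul_le_mul_of_nonneg_right _ (Real.exp_pos _).le
            apply mul_le_mul_of_nonneg_right _ (by positivity)
            linarith [Real.exp_pos (c * N0)]

end

end Pool.Agent.W169.AF
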