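import Pool.Agent.W169.AF.Basic
import Pool.Agent.W169.AF.Stm2

set_option autoImplicit false

/-! Project AF: from the counting function to sets of characters. -/

namespace Pool.Agent.W169.AF

open Finset Filter Topology MeasureTheory

noncomputable section

/-- The pairs `(q, χ)`, `2 ≤ q ≤ Q`, `χ` primitive modulo `q`. -/
def Fam (Q : ℕ) : Set (Σ q : ℕ, DirichletCharacter ℂ q) :=
  {p | 2 ≤ p.1 ∧ p.1 ≤ Q ∧ p.2.IsPrimitive}

theorem fam_eq (Q : ℕ) (P : (q : ℕ) → DirichletCharacter ℂ q → Prop) :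
    (Fam Q ∩ {p | P p.1 p.2}).Finite ∧ ((Fam Q ∩ {p | P p.1 p.2}).ncard : ℝ) = cnt Q P := by
  classical
  have h : (Fam Q ∩ {p | P p.1 p.2}) =
      ((((Finset.Icc 2 Q).sigma PC).filter (fun x => P x.1 x.2) :
        Finset (Σ q : ℕ, DirichletCharacter ℂ q)) : Set (Σ q : ℕ, DirichletCharacter ℂ q)) := by
    ext p
    simp only [Set.mem_inter_iff, Finset.coe_filter, Finset.mem_sigma, Finset.mem_Icc,
      Set.mem_setOf_eq]
    unfold Fam PC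
    simp only [Set.mem_setOf_eq, Finset.mem_filter, Finset.mem_univ, true_and]
    tauto
  rw [h]
  refine ⟨Finset.finite_toSet _, ?_⟩
  rw [Set.ncard_coe_finset]
  unfold cnt FS
  rw [Finset.sum_sigma', Finset.sum_boole]

theorem fam_true (Q : ℕ) : (Fam Q).Finite ∧ ((Fam Q).ncard : ℝ) = cnt Q (fun _ _ => True) := by
  have h := fam_eq Q (fun _ _ => True)
  have e : (Fam Q ∩ {p : Σ q : ℕ, DirichletCharacter ℂ q | True}) = Fam Q := by
    ext p; simp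
  rw [e] at h
  exact h

/-- proportions -/
theorem prop_of (hPCN : S_PCN) : ∃ K : ℝ, 0 < K ∧ ∀ (Q : ℕ) (P : (q : ℕ) → DirichletCharacter ℂ q → Prop)
    (C E : ℝ), 3 ≤ Q → 0 ≤ C → 0 ≤ E → cnt Q P ≤ C * (Q : ℝ) ^ 2 * E →
    (Fam Q).Finite ∧ ((Fam Q ∩ {p | P p.1 p.2}).ncard : ℝ) ≤ K * C * E * ((Fam Q).ncard : ℝ) := by
  obtain ⟨c, hc, h⟩ := hPCN
  refine ⟨c⁻¹, inv_pos.2 hc, ?_⟩
  intro Q P C E hQ hC hE hle
  refine ⟨(fam_true Q).1, ?_⟩
  rw [(fam_eq Q P).2, (fam_true Q).2]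
  have h1 := h Q hQ
  have h2 : (Q : ℝ) ^ 2 ≤ c⁻¹ * cnt Q (fun _ _ => True) := by
    rw [inv_mul_eq_div, le_div_iff₀ hc]
    linarith
  calc cnt Q P ≤ C * (Q : ℝ) ^ 2 * E := hle
    _ = (C * E) * (Q : ℝ) ^ 2 := by ring
    _ ≤ (C * E) * (c⁻¹ * cnt Q (fun _ _ => True)) := mul_le_mul_of_nonneg_left h2 (by positivity)
    _ = c⁻¹ * C * E * cnt Q (fun _ _ => True) := by ring

end

end Pool.Agent.W169.AF
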