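import Pool.Agent.W169.AF.Stm
import Pool.Agent.W571.SD.SB1
import Pool.Agent.W347.SD.SB2
import Pool.Agent.W368.SD.SB3

set_option autoImplicit false

/-! Project AF, part LOC. -/

namespace Pool.Agent.W169.AF

open Finset Filter Topology MeasureTheory Complex
open Pool.Agent.H24R2.DZ (NN)

theorem NN.mono {a η η' : ℝ} {F : ℂ → ℂ} (ha : 0 ≤ a) (h : NN a η F) (hη : η ≤ η') : NN a η' F where
  diff := h.diff
  symm := h.symm
  far := fun z h1 h2 => ⟨(h.far z h1 h2).1, (h.far z h1 h2).2.trans
    (mul_le_mul_of_nonneg_right hη ha)⟩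
  near := h.near

/-- scaling of derivatives -/
theorem scale {G : ℂ → ℂ} (hG : Differentiable ℂ G) (c : ℂ) (m : ℕ) (z : ℂ) :
    iteratedDeriv m (fun z => G (c * z)) z = c ^ m * iteratedDeriv m G (c * z) := by
  have := iteratedDeriv_comp_const_mul (n := m) (hG.contDiff (n := m)) c
  rw [this]

/-- symmetry of the derivatives under conjugation -/
theorem loc : S_LOC := by
  obtain ⟨ηa, na, hηa, ha⟩ := Pool.Agent.W571.SD.sb1a
  obtain ⟨ηb, nb, hηb, hb⟩ := Pool.Agent.W571.SD.sb1b
  obtain ⟨η2, hη2, h2⟩ := Pool.Agent.W347.SD.sb2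
  obtain ⟨η3, hη3, h3⟩ := Pool.Agent.W368.SD.sb3 Pool.Agent.W347.SD.sb2
  refine ⟨min (min ηa ηb) (min η2 η3), max (max na nb) 1,
    lt_min (lt_min hηa hηb) (lt_min hη2 hη3), ?_⟩
  intro n J G hn hG hNN
  set η := min (min ηa ηb) (min η2 η3) with hη
  have hηa' : η ≤ ηa := (min_le_left _ _).trans (min_le_left _ _)
  have hηb' : η ≤ ηb := (min_le_left _ _).trans (min_le_right _ _)
  have hη2' : η ≤ η2 := (min_le_right _ _).trans (min_le_left _ _)
  have hη3' : η ≤ η3 := (min_le_right _ _).trans (min_le_right _ _)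
  have hna : na ≤ n := (le_max_left _ _).trans ((le_max_left _ _).trans hn)
  have hnb : nb ≤ n := (le_max_right _ _).trans ((le_max_left _ _).trans hn)
  have hn1 : 1 ≤ n := (le_max_right _ _).trans hn
  have hn1' : (1 : ℝ) ≤ n := by exact_mod_cast hn1
  have hn0 : (0 : ℝ) < n := by linarith
  -- part (a)
  have hA : ∀ z : ℂ, |z.re| ≤ 10 * 2 ^ J * n → |z.im| ≤ n / 50 → iteratedDeriv n G z = 0 →
      z.re = 0 ∧ iteratedDeriv (n + 1) G z ≠ 0 := by
    intro z hz1 hz2 hz0
    by_cases hsmall : |z.re| ≤ 10 * n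
    · -- scale `n`
      have hN0 := hNN 0 (Nat.zero_le _)
      have e0 : (2 ^ 0 * (n : ℝ)) = n := by ring
      rw [e0] at hN0
      set c : ℂ := 2 * (2 ^ 0 * n) with hc
      have hcr : c = ((2 * n : ℝ) : ℂ) := by rw [hc]; push_cast; ring
      have hc0 : c ≠ 0 := by
        rw [hcr]; exact_mod_cast (by positivity : (2 * n : ℝ) ≠ 0)
      have hzc : c * (z / c) = z := by field_simp
      have hi : ∀ m : ℕ, iteratedDeriv m (fun z => G (c * z)) (z / c) = c ^ m * iteratedDeriv m G z := by
        intro m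
        rw [scale hG, hzc]
      have hre' : (z / c).re = z.re / (2 * n) := by
        rw [hcr, Complex.div_ofReal_re]
      have him' : (z / c).im = z.im / (2 * n) := by
        rw [hcr, Complex.div_ofReal_im]
      have h2n : (0 : ℝ) < 2 * n := by positivity
      have hre5 : |(z / c).re| ≤ 5 := by
        rw [hre', abs_div, abs_of_pos h2n, div_le_iff₀ h2n]; linarith
      have him1 : |(z / c).im| ≤ 1 / 100 := by
        rw [him', abs_div, abs_of_pos h2n, div_le_iff₀ h2n]; linarith
      have hzero : iteratedDeriv n (fun z => G (c * z)) (z / c) = 0 := by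
        rw [hi n, hz0, mul_zero]
      rcases le_or_gt (1 / 100) |(z / c).re| with h | h
      · exact absurd hzero (ha n _ hna (NN.mono hn0.le hN0 hηa') _ h hre5 him1)
      · obtain ⟨hr, hd⟩ := hb n _ hnb (NN.mono hn0.le hN0 hηb') (z / c) h.le him1 hzero
        refine ⟨?_, ?_⟩
        · rw [hre', div_eq_zero_iff] at hr
          rcases hr with hr | hr
          · exact hr
          · exact absurd hr h2n.ne'
        · intro h
          rw [hi (n + 1), h, mul_zero] at hd
          exact hd rfl
    · -- larger scales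
      exfalso
      have hex : ∃ j : ℕ, |z.re| ≤ 10 * 2 ^ j * n := ⟨J, hz1⟩
      classical
      set j := Nat.find hex with hj
      have hj1 : |z.re| ≤ 10 * 2 ^ j * n := Nat.find_spec hex
      have hjJ : j ≤ J := Nat.find_min' hex hz1
      have hj0 : j ≠ 0 := by
        intro h
        rw [h] at hj1
        apply hsmall
        simpa using hj1
      obtain ⟨i, hi⟩ := Nat.exists_eq_succ_of_ne_zero hj0
      have hj2 : 10 * 2 ^ i * n < |z.re| := by
        have := Nat.find_min hex (m := i) (by omega)
        exact not_le.1 this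
      have hNj := hNN j hjJ
      set a : ℝ := 2 ^ j * n with hadef
      have hja : a = 2 * (2 ^ i * n) := by rw [hadef, hi, pow_succ]; ring
      have h2j : (1 : ℝ) ≤ 2 ^ j := one_le_pow₀ (by norm_num)
      have han : (n : ℝ) ≤ a := by
        rw [hadef]
        exact le_mul_of_one_le_left hn0.le h2j
      have ha0 : 0 < a := lt_of_lt_of_le hn0 han
      set c : ℂ := 2 * (2 ^ j * n) with hc
      have hcr : c = ((2 * a : ℝ) : ℂ) := by rw [hc, hadef]; push_cast; ring
      have h2a : (0 : ℝ) < 2 * a := by positivity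
      have hc0 : c ≠ 0 := by
        rw [hcr]; exact_mod_cast h2a.ne'
      have hzc : c * (z / c) = z := by field_simp
      have hre' : (z / c).re = z.re / (2 * a) := by
        rw [hcr, Complex.div_ofReal_re]
      have him' : (z / c).im = z.im / (2 * a) := by
        rw [hcr, Complex.div_ofReal_im]
      have hre5 : |(z / c).re| ≤ 5 := by
        rw [hre', abs_div, abs_of_pos h2a, div_le_iff₀ h2a]; linarith
      have hre2 : 2 ≤ |(z / c).re| := by
        rw [hre', abs_div, abs_of_pos h2a, le_div_iff₀ h2a]; linarith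
      have him1 : |(z / c).im| ≤ 1 := by
        rw [him', abs_div, abs_of_pos h2a, div_le_iff₀ h2a]; linarith
      have hzero : iteratedDeriv n (fun z => G (c * z)) (z / c) = 0 := by
        rw [scale hG, hzc, hz0, mul_zero]
      exact h3 a n _ hn1 han (NN.mono ha0.le hNj hη3') (z / c) hre2 hre5 him1 hzero
  exact hA

end Pool.Agent.W169.AF
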