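import Pool.Agent.Helper112.MultLS
import Pool.Agent.W186.SD.Spec

set_option autoImplicit false

/-!
Project AF (helper169): ALL primitive Dirichlet characters of conductor at most `Q`, at an arbitrary
height `t0`: zeros of the derivatives and of the heat flow of the completed L-functions near
`1/2 + i t0`. Statements of the parts.
-/

namespace Pool.Agent.W169.AF

open Finset Filter Topology MeasureTheory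
open Pool.Agent.H24R2.DZ (NN bb mo cc yy ra SSq SHar SMo)

noncomputable section

/-- The Dirichlet L-function (the value for `q = 0` is never used). -/
def LF (q : ℕ) (χ : DirichletCharacter ℂ q) (s : ℂ) : ℂ :=
  if h : q = 0 then 0 else
    haveI : NeZero q := ⟨h⟩
    DirichletCharacter.LFunction χ s

/-- The completed L-function `q^{s/2} Λ(s, χ)` (the value for `q = 0` is never used). -/
def LC (q : ℕ) (χ : DirichletCharacter ℂ q) (s : ℂ) : ℂ :=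
  if h : q = 0 then 0 else
    haveI : NeZero q := ⟨h⟩
    (q : ℂ) ^ (s / 2) * DirichletCharacter.completedLFunction χ s

open Classical in
/-- The primitive characters modulo `q`. -/
def PC (q : ℕ) : Finset (DirichletCharacter ℂ q) :=
  (univ : Finset (DirichletCharacter ℂ q)).filter (fun χ => χ.IsPrimitive)

/-- Sum over all pairs `(q, χ)`, `2 ≤ q ≤ Q`, `χ` primitive modulo `q`. -/
def FS (Q : ℕ) (f : (q : ℕ) → DirichletCharacter ℂ q → ℝ) : ℝ :=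
  ∑ q ∈ Icc 2 Q, ∑ χ ∈ PC q, f q χ

open Classical in
/-- Number of pairs `(q, χ)`, `2 ≤ q ≤ Q`, `χ` primitive modulo `q`, with the property `P`. -/
def cnt (Q : ℕ) (P : (q : ℕ) → DirichletCharacter ℂ q → Prop) : ℝ :=
  FS Q (fun q χ => if P q χ then 1 else 0)

/-- The mollifier. -/
def MX (θ : ℝ) (Q q : ℕ) (χ : DirichletCharacter ℂ q) (s : ℂ) : ℂ :=
  ∑ h ∈ Icc 1 (yy θ Q), (mo θ (Real.log Q) h : ℂ) * χ (h : ZMod q) * (h : ℂ) ^ (-s)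

/-- The length of the approximation. -/
def NQ (Q : ℕ) : ℕ := ⌊(Q : ℝ) ^ (3 / 2 : ℝ)⌋₊

/-- The Dirichlet polynomial approximating `L(s) M(s + β)`. -/
def SX (θ : ℝ) (Q q : ℕ) (χ : DirichletCharacter ℂ q) (s β : ℂ) : ℂ :=
  ∑ n ∈ Icc 1 (NQ Q), cc (bb θ (Real.log Q) β) n * χ (n : ZMod q) * (n : ℂ) ^ (-s)

/-- part PV: Polya-Vinogradov -/
def S_PV : Prop := ∃ C : ℝ, 0 < C ∧ ∀ q : ℕ, 2 ≤ q → ∀ χ ∈ PC q, ∀ N : ℕ,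
  ‖∑ n ∈ Icc 1 N, χ (n : ZMod q)‖ ≤ C * Real.sqrt q * Real.log q

/-- part TL: the tail of the Dirichlet series -/
def S_TL : Prop := ∃ C : ℝ, 0 < C ∧ ∀ q : ℕ, 2 ≤ q → ∀ χ ∈ PC q, ∀ s : ℂ, 1 / 2 ≤ s.re →
  ∀ N : ℕ, 1 ≤ N → ‖LF q χ s - ∑ n ∈ Icc 1 N, χ (n : ZMod q) * (n : ℂ) ^ (-s)‖ ≤
    C * (1 + ‖s‖) * (Real.sqrt q * Real.log q) * (N : ℝ) ^ (-s.re)

/-- part APX: approximation of the mollified L-function by a short Dirichlet polynomial -/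
def S_APX : Prop := ∃ C : ℝ, 0 < C ∧ ∀ θ : ℝ, 0 < θ → θ ≤ 1 / 200 → ∀ Q q : ℕ, 2 ≤ q → q ≤ Q →
  ∀ χ ∈ PC q, ∀ s β : ℂ, 1 / 2 ≤ s.re → s.re ≤ 2 → ‖β‖ ≤ 1 →
    ‖LF q χ s * MX θ Q q χ (s + β) - SX θ Q q χ s β‖ ≤ C * (1 + ‖s‖) * (Q : ℝ) ^ (-(1 / 5) : ℝ)

/-- part MV1: the mollified L-function is close to `1` in mean square -/
def S_MV1 : Prop := ∀ θ : ℝ, 0 < θ → θ ≤ 1 / 200 → ∃ C Q0 : ℝ, 0 < C ∧ 2 ≤ Q0 ∧ ∀ Q : ℕ, Q0 ≤ Q →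
  ∀ s : ℂ, 1 / 2 ≤ s.re → s.re ≤ 9 / 10 → ‖s‖ ≤ (Q : ℝ) ^ (1 / 20 : ℝ) →
    FS Q (fun q χ => ‖LF q χ s * MX θ Q q χ s - 1‖ ^ 2) ≤
      C * (Q : ℝ) ^ 2 * Real.exp (-(θ * (s.re - 1 / 2) * Real.log Q))

/-- part MV2: the mixed mean square -/
def S_MV2 : Prop := ∀ θ : ℝ, 0 < θ → θ ≤ 1 / 200 → ∃ C Q0 : ℝ, 0 < C ∧ 2 ≤ Q0 ∧ ∀ Q : ℕ, Q0 ≤ Q →
  ∀ s β : ℂ, 1 / 2 ≤ s.re → s.re ≤ 9 / 10 → ‖β‖ ≤ 1 → ‖s‖ ≤ (Q : ℝ) ^ (1 / 20 : ℝ) →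
    FS Q (fun q χ => ‖LF q χ s * MX θ Q q χ (s + β)‖ ^ 2) ≤
      C * (Q : ℝ) ^ 2 * (1 + Real.log Q * ‖β‖) ^ 20 * Real.exp (2 * θ * Real.log Q * ‖β‖)

/-- `(q, χ)` is good at scale `a`, near the height `t0`. -/
def Gd (θ η ε : ℝ) (Q : ℕ) (a t0 : ℝ) (q : ℕ) (χ : DirichletCharacter ℂ q) : Prop :=
  (∫ x in (ra Q a / 4000)..(30 * ra Q a), ∫ y in (-(30 * ra Q a))..(30 * ra Q a),
    ‖LF q χ (1 / 2 + x + (t0 + y) * Complex.I) * MX θ Q q χ (1 / 2 + x + (t0 + y) * Complex.I) - 1‖ ^ 2) ≤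
      η * ra Q a ^ 2 ∧
  (∫ x in (0 : ℝ)..(30 * ra Q a), ∫ y in (-(30 * ra Q a))..(30 * ra Q a),
    ‖LF q χ (1 / 2 + x + (t0 + y) * Complex.I) * MX θ Q q χ (1 / 2 + ra Q a + t0 * Complex.I)‖ ^ 2) ≤
      Real.exp (ε * a) * ra Q a ^ 2

/-- part C1: few characters are bad -/
def S_C1 : Prop := ∀ η ε : ℝ, 0 < η → 0 < ε → ∃ θ c C a0 Q0 : ℝ, 0 < θ ∧ θ ≤ 1 / 200 ∧ 0 < c ∧ 0 < C ∧
  1 ≤ a0 ∧ 2 ≤ Q0 ∧ ∀ (Q : ℕ) (a t0 : ℝ), Q0 ≤ Q → a0 ≤ a → a ≤ Real.log Q / 200 →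
    |t0| ≤ (Q : ℝ) ^ (1 / 30 : ℝ) →
    cnt Q (fun q χ => ¬ Gd θ η ε Q a t0 q χ) ≤ C * (Q : ℝ) ^ 2 * Real.exp (-(c * a))

/-- part HG: the Gamma factor -/
def S_HG : Prop := ∀ η : ℝ, 0 < η → ∃ c Q0 : ℝ, 0 < c ∧ c ≤ 1 / 30 ∧ 2 ≤ Q0 ∧ ∀ Q q : ℕ, Q0 ≤ Q →
  (Q : ℝ) ^ (1 - c) ≤ q → q ≤ Q → ∀ χ ∈ PC q, ∃ H : ℂ → ℂ,
    (∀ s : ℂ, 0 < s.re → DifferentiableAt ℂ H s ∧ H s ≠ 0 ∧ LC q χ s = H s * LF q χ s) ∧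
    ∀ s : ℂ, 1 / 4 ≤ s.re → s.re ≤ 2 → |s.im| ≤ (Q : ℝ) ^ c + 1 →
      ‖logDeriv H s - ((Real.log Q / 2 : ℝ) : ℂ)‖ ≤ η * Real.log Q

/-- `ω Λ_χ` is symmetric with respect to the critical line (at height `t0`). -/
def Sy (t0 : ℝ) (ω : ℂ) (q : ℕ) (χ : DirichletCharacter ℂ q) : Prop :=
  ∀ w : ℂ, ω * LC q χ (1 / 2 + Complex.I * t0 - (starRingEnd ℂ) w) =
    (starRingEnd ℂ) (ω * LC q χ (1 / 2 + Complex.I * t0 + w))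

/-- part SYM: functional equation -/
def S_SYM : Prop := ∀ q : ℕ, 2 ≤ q → ∀ χ ∈ PC q, Differentiable ℂ (LC q χ) ∧
  Differentiable ℂ (LF q χ) ∧ ∀ t0 : ℝ, ∃ ω : ℂ, ‖ω‖ = 1 ∧ Sy t0 ω q χ

/-- the local situation at scale `a`, with a lower bound -/
def NNx (η : ℝ) (Q : ℕ) (a t0 : ℝ) (q : ℕ) (χ : DirichletCharacter ℂ q) : Prop :=
  (∀ ω : ℂ, ‖ω‖ = 1 → Sy t0 ω q χ →
    NN a η (fun z => ω * LC q χ (1 / 2 + Complex.I * t0 + ra Q a * z))) ∧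
  (Q : ℝ)⁻¹ ≤ ‖LF q χ (1 / 2 + Complex.I * t0 + ra Q a)‖

/-- part C2: good characters are in the normalised local situation -/
def S_C2 : Prop := ∀ η : ℝ, 0 < η → ∃ η1 ε1 c : ℝ, 0 < η1 ∧ 0 < ε1 ∧ 0 < c ∧ c ≤ 1 / 30 ∧
  ∀ θ : ℝ, 0 < θ → θ ≤ 1 / 200 → ∃ a0 Q0 : ℝ, ∀ (Q q : ℕ) (a t0 : ℝ), Q0 ≤ Q → a0 ≤ a →
    a ≤ Real.log Q / 200 → |t0| ≤ (Q : ℝ) ^ c → (Q : ℝ) ^ (1 - c) ≤ q → q ≤ Q → ∀ χ ∈ PC q,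
      Gd θ η1 ε1 Q a t0 q χ → NNx η Q a t0 q χ

/-- part NQ: most characters are in the normalised local situation -/
def S_NQ : Prop := ∀ η : ℝ, 0 < η → ∃ C c a0 Q0 : ℝ, 0 < C ∧ 0 < c ∧ c ≤ 1 / 30 ∧ 1 ≤ a0 ∧ 2 ≤ Q0 ∧
  ∀ (Q : ℕ) (a t0 : ℝ), Q0 ≤ Q → a0 ≤ a → a ≤ Real.log Q / 200 → |t0| ≤ (Q : ℝ) ^ c →
    cnt Q (fun q χ => ¬ NNx η Q a t0 q χ) ≤ C * (Q : ℝ) ^ 2 * Real.exp (-(c * a))

/-- part LOC: zeros of the derivatives of a function which is good at the scales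
`n, 2n, ..., 2^J n` -/
def S_LOC : Prop := ∃ (η : ℝ) (n0 : ℕ), 0 < η ∧ ∀ (n J : ℕ) (G : ℂ → ℂ), n0 ≤ n →
    Differentiable ℂ G →
    (∀ j : ℕ, j ≤ J → NN (2 ^ j * n) η (fun z => G (2 * (2 ^ j * n) * z))) →
    ∀ z : ℂ, |z.re| ≤ 10 * 2 ^ J * n → |z.im| ≤ n / 50 → iteratedDeriv n G z = 0 →
      z.re = 0 ∧ iteratedDeriv (n + 1) G z ≠ 0

/-- All zeros in the box `|Re s - 1/2| ≤ c`, `|Im s - t0| ≤ c n / log Q` of the `n`-th derivative of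
`Λ_χ`, `R ≤ n ≤ c log Q`, are simple and lie on the critical line. -/
def DerGood (c : ℝ) (Q : ℕ) (R t0 : ℝ) (q : ℕ) (χ : DirichletCharacter ℂ q) : Prop :=
  ∀ n : ℕ, R ≤ n → (n : ℝ) ≤ c * Real.log Q → ∀ s : ℂ, |s.re - 1 / 2| ≤ c →
    |s.im - t0| ≤ c * n / Real.log Q → iteratedDeriv n (LC q χ) s = 0 →
      s.re = 1 / 2 ∧ iteratedDeriv (n + 1) (LC q χ) s ≠ 0

/-- part DER: the theorem on derivatives -/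
def S_DER : Prop := ∃ C c : ℝ, 0 < C ∧ 0 < c ∧ ∀ (Q : ℕ) (R t0 : ℝ), 2 ≤ Q → 0 ≤ R →
  |t0| ≤ (Q : ℝ) ^ c →
    cnt Q (fun q χ => ¬ DerGood c Q R t0 q χ) ≤ C * (Q : ℝ) ^ 2 * Real.exp (-(c * R))

/-- part GRO: growth of the completed function -/
def S_GRO : Prop := ∃ C : ℝ, 0 < C ∧ ∀ q : ℕ, 2 ≤ q → ∀ χ ∈ PC q, ∀ s : ℂ,
  ‖LC q χ s‖ ≤ Real.exp (C * (1 + ‖s‖) * (Real.log q + Real.log (2 + ‖s‖)))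

/-- part LOH: zeros of the heat flow of a function which is good at the scales
`a, 2a, ..., 2^J a` -/
def S_LOH : Prop := ∀ C : ℝ, 0 < C → ∃ η a0 c0 : ℝ, 0 < η ∧ 1 ≤ a0 ∧ 0 < c0 ∧
    ∀ (a L : ℝ) (J : ℕ) (G : ℂ → ℂ), a0 ≤ a → a ≤ c0 * L → L / 400 ≤ 2 ^ J * a →
    2 ^ J * a ≤ L / 200 →
    Differentiable ℂ G → (∀ z : ℂ, G (-((starRingEnd ℂ) z)) = (starRingEnd ℂ) (G z)) →
    (∀ j : ℕ, j ≤ J → NN (2 ^ j * a) η (fun z => G (2 * (2 ^ j * a) * z))) →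
    Real.exp (-(C * L)) ≤ ‖G (2 * (2 ^ J * a))‖ →
    (∀ z : ℂ, ‖G z‖ ≤ Real.exp (C * (L + ‖z‖) * (1 + Real.log (2 + ‖z‖ / L)))) →
    ∀ z : ℂ, |z.re| ≤ 10 * 2 ^ J * a → |z.im| ≤ a →
      (∫ u : ℝ, ((Real.exp (-(u ^ 2 / (8 * a))) : ℝ) : ℂ) * G (z + (u : ℂ))) = 0 →
      z.re = 0 ∧ deriv (fun z => ∫ u : ℝ, ((Real.exp (-(u ^ 2 / (8 * a))) : ℝ) : ℂ) *
        G (z + (u : ℂ))) z ≠ 0

/-- the heat flow (not normalised) -/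
def HFl (t : ℝ) (f : ℂ → ℂ) (s : ℂ) : ℂ :=
  ∫ u : ℝ, ((Real.exp (-(u ^ 2 / (4 * t))) : ℝ) : ℂ) * f (s + (u : ℂ))

/-- All zeros in the box `|Re s - 1/2| ≤ c`, `|Im s - t0| ≤ c t log Q` of the heat flow of `Λ_χ` at
time `t` are simple and lie on the critical line. -/
def HeatGood (c t : ℝ) (Q : ℕ) (t0 : ℝ) (q : ℕ) (χ : DirichletCharacter ℂ q) : Prop :=
  ∀ s : ℂ, |s.re - 1 / 2| ≤ c → |s.im - t0| ≤ c * t * Real.log Q →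
    HFl t (LC q χ) s = 0 → s.re = 1 / 2 ∧ deriv (HFl t (LC q χ)) s ≠ 0

/-- part HEAT: the theorem on the heat flow -/
def S_HEAT : Prop := ∀ B : ℝ, 0 ≤ B → ∃ C c : ℝ, 0 < C ∧ 0 < c ∧ ∀ (Q : ℕ) (t t0 : ℝ), 2 ≤ Q → 0 < t →
  t * Real.log Q ≤ c → |t0| ≤ B →
    cnt Q (fun q χ => ¬ HeatGood c t Q t0 q χ) ≤
      C * (Q : ℝ) ^ 2 * Real.exp (-(c * t * Real.log Q ^ 2))

/-- part PCN: the number of primitive characters of conductor at most `Q` -/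
def S_PCN : Prop := ∃ c : ℝ, 0 < c ∧ ∀ Q : ℕ, 3 ≤ Q → c * (Q : ℝ) ^ 2 ≤ cnt Q (fun _ _ => True)

/-- part ZN: the number of zeros in the local situation -/
def S_ZN : Prop := ∃ η C : ℝ, 0 < η ∧ 0 < C ∧ ∀ (a : ℝ) (F : ℂ → ℂ), 1 ≤ a → NN a η F →
  ∀ S : Finset ℂ, (∀ s ∈ S, ‖s‖ ≤ 1) → ∑ s ∈ S, (analyticOrderNatAt F s : ℝ) ≤ C * a

/-- part DET: a bound for the number of zeros in a fixed disc, for every character -/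
def S_DET : Prop := ∃ C : ℝ, 0 < C ∧ ∀ q : ℕ, 2 ≤ q → ∀ χ ∈ PC q, ∀ (t0 : ℝ) (S : Finset ℂ),
  (∀ s ∈ S, ‖s - (1 / 2 + Complex.I * t0)‖ ≤ 1 / 4) →
    ∑ s ∈ S, (analyticOrderNatAt (LF q χ) s : ℝ) ≤ C * (Real.log q + Real.log (2 + |t0|))

end

end Pool.Agent.W169.AF
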