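import Pool.Agent.W169.AF.Inputs
import Pool.Agent.W169.AF.Loc
import Pool.Agent.W169.AF.Derw
import Pool.Agent.W169.AF.Fin
import Pool.Agent.W198.AF.Apxw
import Pool.Agent.W240.AF.MV1w
import Pool.Agent.W421.AF.MV2w
import Pool.Agent.W226.AF.C1w
import Pool.Agent.W18.AF.HGw
import Pool.Agent.W169.AF.C2w
import Pool.Agent.W850.AF.PCN

set_option autoImplicit false

/-! Project AF: linking. -/

namespace Pool.Agent.W169.AF

theorem apxw : S_APXw := Pool.Agent.W198.AF.Apxw.apxw tl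

theorem nqw_fin : S_NQw :=
  nqw (Pool.Agent.W226.AF.c1w sym (Pool.Agent.W240.AF.mv1w apxw smo)
    (Pool.Agent.W421.AF.mv2w apxw smo))
    (Pool.Agent.W169.AF.C2W.c2w Pool.Agent.W18.AF.HGw.hgw sym ssq shar)

theorem derw_fin : S_DERw := derw nqw_fin loc sym

theorem pcn : S_PCN := Pool.Agent.W850.AF.PCN.pcn

end Pool.Agent.W169.AF
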