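import Pool.Agent.W169.AF.Zeros

set_option autoImplicit false

/-! Project AF: the number of zeros near a point, all radii up to `1/4`. -/

namespace Pool.Agent.W169.AF

open Finset Filter Topology MeasureTheory

noncomputable section

/-- every disc with centre `1/2 + i t0` and radius `A / log Q`, `R ≤ A ≤ (log Q) / 4`, contains at most
`K A` zeros of `L(s, χ)`, with multiplicity -/
def ZeroAll (K : ℝ) (Q : ℕ) (R t0 : ℝ) (q : ℕ) (χ : DirichletCharacter ℂ q) : Prop :=
  ∀ A : ℝ, R ≤ A → A ≤ Real.log Q / 4 → ∀ S : Finset ℂ,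
    (∀ s ∈ S, ‖s - (1 / 2 + Complex.I * t0)‖ ≤ A / Real.log Q) →
      ∑ s ∈ S, (analyticOrderNatAt (LF q χ) s : ℝ) ≤ K * A

theorem zero_all (hNQ : S_NQw) (hZN : S_ZN) (hSYM : S_SYM) (hDET : S_DET) :
    ∃ C c K : ℝ, 0 < C ∧ 0 < c ∧ 0 < K ∧
    ∀ (Q : ℕ) (R t0 : ℝ), 2 ≤ Q → 1 ≤ R → |t0| ≤ (Q : ℝ) ^ c →
      cnt Q (fun q χ => ¬ ZeroAll K Q R t0 q χ) ≤ C * (Q : ℝ) ^ 2 * Real.exp (-(c * R)) := by
  obtain ⟨C, c, K, hC, hc, hK, H⟩ := zero_thm hNQ hZN hSYM
  obtain ⟨D, hD, hdet⟩ := hDET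
  set c' := min c (1 / 8) with hc'
  have hc'0 : 0 < c' := lt_min hc (by norm_num)
  have hc'c : c' ≤ c := min_le_left _ _
  have hc'8 : c' ≤ 1 / 8 := min_le_right _ _
  -- for `A ≥ c log Q`: at most `D (log Q + log (2 + |t0|)) ≤ 4 D log Q`
  refine ⟨Real.exp 1 + C, c', K + 4 * D / c, by positivity, hc'0, by positivity, ?_⟩
  intro Q R t0 hQ hR ht
  have hQ2 : (2 : ℝ) ≤ Q := by exact_mod_cast hQ
  have hQp : (0 : ℝ) < Q := by linarith
  have hL : 0 < Real.log Q := Real.log_pos (by linarith)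
  have ht1 : |t0| ≤ (Q : ℝ) ^ c :=
    ht.trans (Real.rpow_le_rpow_of_exponent_le (by linarith) hc'c)
  have ht2 : Real.log (2 + |t0|) ≤ 3 * Real.log Q := by
    have h1 : |t0| ≤ Q := by
      refine ht.trans ?_
      calc (Q : ℝ) ^ c' ≤ (Q : ℝ) ^ (1 : ℝ) :=
            Real.rpow_le_rpow_of_exponent_le (by linarith) (by linarith)
        _ = Q := Real.rpow_one _
    have h2 : 2 + |t0| ≤ (Q : ℝ) ^ 2 := by nlinarith
    have h3 : Real.log (2 + |t0|) ≤ Real.log ((Q : ℝ) ^ 2) :=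
      Real.log_le_log (by positivity) h2
    rw [Real.log_pow] at h3
    push_cast at h3
    linarith
  have h2 : cnt Q (fun q χ => ¬ ZeroAll (K + 4 * D / c) Q R t0 q χ) ≤
      cnt Q (fun q χ => ¬ ZeroGood c K Q R t0 q χ) := by
    apply cnt_mono
    intro q hq1 hq2 χ hχ hn hg
    apply hn
    intro A hA1 hA2 S hS
    have hA0 : 1 ≤ A := hR.trans hA1
    rcases le_or_gt A (c * Real.log Q) with h | h
    · have := hg A hA1 h S hS
      have h4 : 0 ≤ 4 * D / c * A := by positivity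
      linarith
    · have h5 := hdet q hq1 χ hχ t0 S (fun s hs => (hS s hs).trans (by
        rw [div_le_iff₀ hL]; linarith))
      have h6 : Real.log q ≤ Real.log Q :=
        Real.log_le_log (by exact_mod_cast (by omega : 0 < q)) (by exact_mod_cast hq2)
      have h7 : D * (Real.log q + Real.log (2 + |t0|)) ≤ D * (4 * Real.log Q) :=
        mul_le_mul_of_nonneg_left (by linarith) hD.le
      have h8 : D * (4 * Real.log Q) ≤ 4 * D / c * A := by
        rw [div_mul_eq_mul_div, le_div_iff₀ hc]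
        have := mul_le_mul_of_nonneg_left h.le (show 0 ≤ 4 * D by linarith)
        linarith
      have h9 : 0 ≤ K * A := by positivity
      linarith
  calc _ ≤ _ := h2
    _ ≤ C * (Q : ℝ) ^ 2 * Real.exp (-(c * R)) := H Q R t0 hQ hR ht1
    _ ≤ C * (Q : ℝ) ^ 2 * Real.exp (-(c' * R)) := by
        apply mul_le_mul_of_nonneg_left _ (by positivity)
        apply Real.exp_le_exp.2
        have := mul_le_mul_of_nonneg_right hc'c (show 0 ≤ R by linarith)
        linarith
    _ ≤ (Real.exp 1 + C) * (Q : ℝ) ^ 2 * Real.exp (-(c' * R)) := by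
        apply mul_le_mul_of_nonneg_right _ (Real.exp_pos _).le
        apply mul_le_mul_of_nonneg_right _ (by positivity)
        linarith [Real.exp_pos 1]

end

end Pool.Agent.W169.AF
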