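import Pool.Agent.W169.AF.Stm

set_option autoImplicit false

/-! Project AF: counting, and part NQ. -/

namespace Pool.Agent.W169.AF

open Finset Filter Topology MeasureTheory

noncomputable section

theorem PC_card {q : ℕ} (hq : 2 ≤ q) : ((PC q).card : ℝ) ≤ q := by
  classical
  have hne : NeZero q := ⟨by omega⟩
  have h1 : (PC q).card ≤ Fintype.card (DirichletCharacter ℂ q) := by
    unfold PC
    exact (Finset.card_filter_le _ _).trans (by rw [Finset.card_univ])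
  have h2 : Fintype.card (DirichletCharacter ℂ q) = q.totient := by
    rw [← Nat.card_eq_fintype_card]
    exact DirichletCharacter.card_eq_totient_of_hasEnoughRootsOfUnity ℂ q
  rw [h2] at h1
  exact_mod_cast h1.trans (Nat.totient_le q)

theorem FS_mono {Q : ℕ} {f g : (q : ℕ) → DirichletCharacter ℂ q → ℝ}
    (h : ∀ q, 2 ≤ q → q ≤ Q → ∀ χ ∈ PC q, f q χ ≤ g q χ) : FS Q f ≤ FS Q g := by
  unfold FS
  apply Finset.sum_le_sum
  intro q hq
  rw [Finset.mem_Icc] at hq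
  exact Finset.sum_le_sum (fun χ hχ => h q hq.1 hq.2 χ hχ)

theorem FS_add (Q : ℕ) (f g : (q : ℕ) → DirichletCharacter ℂ q → ℝ) :
    FS Q (fun q χ => f q χ + g q χ) = FS Q f + FS Q g := by
  unfold FS
  rw [← Finset.sum_add_distrib]
  apply Finset.sum_congr rfl
  intro q _
  rw [← Finset.sum_add_distrib]

theorem cnt_mono {Q : ℕ} {P P' : (q : ℕ) → DirichletCharacter ℂ q → Prop}
    (h : ∀ q, 2 ≤ q → q ≤ Q → ∀ χ ∈ PC q, P q χ → P' q χ) : cnt Q P ≤ cnt Q P' := by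
  classical
  unfold cnt
  apply FS_mono
  intro q h1 h2 χ hχ
  have := h q h1 h2 χ hχ
  by_cases hp : P q χ
  · rw [if_pos hp, if_pos (this hp)]
  · rw [if_neg hp]
    split_ifs <;> norm_num

theorem cnt_union {Q : ℕ} {P P1 P2 : (q : ℕ) → DirichletCharacter ℂ q → Prop}
    (h : ∀ q, 2 ≤ q → q ≤ Q → ∀ χ ∈ PC q, P q χ → P1 q χ ∨ P2 q χ) :
    cnt Q P ≤ cnt Q P1 + cnt Q P2 := by
  classical
  unfold cnt
  rw [← FS_add]
  apply FS_mono
  intro q h1 h2 χ hχ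
  have := h q h1 h2 χ hχ
  by_cases hp : P q χ
  · rw [if_pos hp]
    rcases this hp with h3 | h3
    · rw [if_pos h3]
      have : (0 : ℝ) ≤ if P2 q χ then 1 else 0 := by split_ifs <;> norm_num
      linarith
    · rw [if_pos h3]
      have : (0 : ℝ) ≤ if P1 q χ then 1 else 0 := by split_ifs <;> norm_num
      linarith
  · rw [if_neg hp]
    have h4 : (0 : ℝ) ≤ if P2 q χ then 1 else 0 := by split_ifs <;> norm_num
    have h5 : (0 : ℝ) ≤ if P1 q χ then 1 else 0 := by split_ifs <;> norm_num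
    linarith

theorem cnt_false {Q : ℕ} {P : (q : ℕ) → DirichletCharacter ℂ q → Prop}
    (h : ∀ q, 2 ≤ q → q ≤ Q → ∀ χ ∈ PC q, ¬ P q χ) : cnt Q P ≤ 0 := by
  classical
  unfold cnt FS
  apply Finset.sum_nonpos
  intro q hq
  rw [Finset.mem_Icc] at hq
  apply Finset.sum_nonpos
  intro χ hχ
  dsimp only
  rw [if_neg (h q hq.1 hq.2 χ hχ)]

theorem cnt_finset {ι : Type*} (s : Finset ι) {Q : ℕ}
    {P : (q : ℕ) → DirichletCharacter ℂ q → Prop}
    {P' : ι → (q : ℕ) → DirichletCharacter ℂ q → Prop}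
    (h : ∀ q, 2 ≤ q → q ≤ Q → ∀ χ ∈ PC q, P q χ → ∃ i ∈ s, P' i q χ) :
    cnt Q P ≤ ∑ i ∈ s, cnt Q (P' i) := by
  classical
  unfold cnt FS
  rw [Finset.sum_comm]
  apply Finset.sum_le_sum
  intro q hq
  rw [Finset.mem_Icc] at hq
  rw [Finset.sum_comm]
  apply Finset.sum_le_sum
  intro χ hχ
  have := h q hq.1 hq.2 χ hχ
  dsimp only
  by_cases hp : P q χ
  · rw [if_pos hp]
    obtain ⟨i, hi, h3⟩ := this hp
    have h4 := Finset.single_le_sum (f := fun i => if P' i q χ then (1 : ℝ) else 0)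
      (fun i _ => by split_ifs <;> norm_num) hi
    rw [if_pos h3] at h4
    exact h4
  · rw [if_neg hp]
    apply Finset.sum_nonneg
    intro i _
    split_ifs <;> norm_num

theorem cnt_small {Q : ℕ} {x : ℝ} (hx : 0 ≤ x) :
    cnt Q (fun q _ => (q : ℝ) < x) ≤ Q * x := by
  classical
  unfold cnt FS
  have h1 : ∀ q ∈ Finset.Icc 2 Q, ∑ χ ∈ PC q, (if (q : ℝ) < x then (1 : ℝ) else 0) ≤ x := by
    intro q hq
    rw [Finset.mem_Icc] at hq
    split_ifs with h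
    · rw [Finset.sum_const, nsmul_eq_mul, mul_one]
      exact (PC_card hq.1).trans h.le
    · simpa using hx
  refine (Finset.sum_le_sum h1).trans ?_
  rw [Finset.sum_const, nsmul_eq_mul]
  apply mul_le_mul_of_nonneg_right _ hx
  rw [Nat.card_Icc]
  exact_mod_cast (by omega : Q + 1 - 2 ≤ Q)

theorem cnt_le (Q : ℕ) (P : (q : ℕ) → DirichletCharacter ℂ q → Prop) :
    cnt Q P ≤ (Q : ℝ) ^ 2 := by
  classical
  unfold cnt FS
  have hQ : (0 : ℝ) ≤ Q := Nat.cast_nonneg _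
  have h1 : ∀ q ∈ Finset.Icc 2 Q, ∑ χ ∈ PC q, (if P q χ then (1 : ℝ) else 0) ≤ Q := by
    intro q hq
    rw [Finset.mem_Icc] at hq
    calc ∑ χ ∈ PC q, (if P q χ then (1 : ℝ) else 0) ≤ ∑ χ ∈ PC q, (1 : ℝ) :=
          Finset.sum_le_sum (fun χ _ => by split_ifs <;> norm_num)
      _ = ((PC q).card : ℝ) := by rw [Finset.sum_const, nsmul_eq_mul, mul_one]
      _ ≤ q := PC_card hq.1
      _ ≤ Q := by exact_mod_cast hq.2
  refine (Finset.sum_le_sum h1).trans ?_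
  rw [Finset.sum_const, nsmul_eq_mul, sq]
  apply mul_le_mul_of_nonneg_right _ hQ
  rw [Nat.card_Icc]
  exact_mod_cast (by omega : Q + 1 - 2 ≤ Q)

/-- part NQ -/
theorem nq (h1 : S_C1) (h2 : S_C2) : S_NQ := by
  intro η hη
  obtain ⟨η1, ε1, c2, hη1, hε1, hc2, hc2', H2⟩ := h2 η hη
  obtain ⟨θ, c1, C1, a1, Q1, hθ, hθ', hc1, hC1, ha1, hQ1, H1⟩ := h1 η1 ε1 hη1 hε1
  obtain ⟨a2, Q2, H2⟩ := H2 θ hθ hθ'
  refine ⟨C1 + 1, min c1 c2, max a1 a2, max Q1 Q2, by linarith, lt_min hc1 hc2,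
    (min_le_right _ _).trans hc2', le_max_of_le_left ha1, le_max_of_le_left hQ1, ?_⟩
  intro Q a t0 hQ ha haL ht
  have hQ2 : (2 : ℝ) ≤ Q := hQ1.trans ((le_max_left _ _).trans hQ)
  have hQ0 : (0 : ℝ) < Q := by linarith
  have hQ1' : (1 : ℝ) ≤ Q := by linarith
  have ha0 : 1 ≤ a := ha1.trans ((le_max_left _ _).trans ha)
  have ht1 : |t0| ≤ (Q : ℝ) ^ (1 / 30 : ℝ) :=
    ht.trans (Real.rpow_le_rpow_of_exponent_le hQ1' ((min_le_right _ _).trans hc2'))
  have ht2 : |t0| ≤ (Q : ℝ) ^ c2 :=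
    ht.trans (Real.rpow_le_rpow_of_exponent_le hQ1' (min_le_right _ _))
  have hA := H1 Q a t0 ((le_max_left _ _).trans hQ) ((le_max_left _ _).trans ha) haL ht1
  have hB : cnt Q (fun q _ => (q : ℝ) < (Q : ℝ) ^ (1 - c2)) ≤ Q * (Q : ℝ) ^ (1 - c2) :=
    cnt_small (Real.rpow_nonneg hQ0.le _)
  have hC : cnt Q (fun q χ => ¬ NNx η Q a t0 q χ) ≤
      cnt Q (fun q χ => ¬ Gd θ η1 ε1 Q a t0 q χ) + cnt Q (fun q _ => (q : ℝ) < (Q : ℝ) ^ (1 - c2)) := by
    apply cnt_union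
    intro q hq1 hq2 χ hχ hn
    by_contra hcon
    push Not at hcon
    exact hn (H2 Q q a t0 ((le_max_right _ _).trans hQ) ((le_max_right _ _).trans ha) haL ht2
      hcon.2 hq2 χ hχ hcon.1)
  have hL : a ≤ Real.log Q := by
    have : 0 ≤ Real.log Q := Real.log_nonneg hQ1'
    linarith
  have hD : (Q : ℝ) * (Q : ℝ) ^ (1 - c2) ≤ (Q : ℝ) ^ 2 * Real.exp (-(min c1 c2 * a)) := by
    have e1 : (Q : ℝ) * (Q : ℝ) ^ (1 - c2) = (Q : ℝ) ^ 2 * Real.exp (-(c2 * Real.log Q)) := by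
      have e2 : (Q : ℝ) ^ (1 - c2) = Q * Real.exp (-(c2 * Real.log Q)) := by
        rw [Real.rpow_def_of_pos hQ0]
        have : Real.log Q * (1 - c2) = Real.log Q + -(c2 * Real.log Q) := by ring
        rw [this, Real.exp_add, Real.exp_log hQ0]
      rw [e2]; ring
    rw [e1]
    apply mul_le_mul_of_nonneg_left _ (by positivity)
    apply Real.exp_le_exp.2
    have h3 : min c1 c2 * a ≤ c2 * Real.log Q :=
      mul_le_mul (min_le_right _ _) hL (by linarith) hc2.le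
    linarith
  have hE : C1 * (Q : ℝ) ^ 2 * Real.exp (-(c1 * a)) ≤ C1 * (Q : ℝ) ^ 2 * Real.exp (-(min c1 c2 * a)) := by
    apply mul_le_mul_of_nonneg_left _ (by positivity)
    apply Real.exp_le_exp.2
    have : min c1 c2 * a ≤ c1 * a := mul_le_mul_of_nonneg_right (min_le_left _ _) (by linarith)
    linarith
  calc cnt Q (fun q χ => ¬ NNx η Q a t0 q χ) ≤ _ := hC
    _ ≤ C1 * (Q : ℝ) ^ 2 * Real.exp (-(min c1 c2 * a)) +
        (Q : ℝ) ^ 2 * Real.exp (-(min c1 c2 * a)) := add_le_add (hA.trans hE) (hB.trans hD)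
    _ = (C1 + 1) * (Q : ℝ) ^ 2 * Real.exp (-(min c1 c2 * a)) := by ring

end

end Pool.Agent.W169.AF
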