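import Pool.Agent.W688.SD.SFour
import Pool.Agent.W613.SD.SCsum
import Pool.Agent.W186.SD.InvZ
import Pool.Agent.W368.SD.SMo
import Pool.Agent.W261.SD.SSq
import Pool.Agent.W688.SD.SHar
import Pool.Agent.W824.AF.PV
import Pool.Agent.W750.AF.TL
import Pool.Agent.W361.AF.Sym

set_option autoImplicit false

/-! Project AF: inputs. -/

namespace Pool.Agent.W169.AF

open Pool.Agent.H24R2.DZ

theorem smo : SMo := Pool.Agent.W368.SD.smo Pool.Agent.W688.SD.sfour Pool.Agent.W613.SD.scsum
  Pool.Agent.W186.SInvZ.sinvz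

theorem ssq : SSq := Pool.Agent.W261.SD.ssq

theorem shar : SHar := Pool.Agent.W688.SD.shar

theorem tl : S_TL := Pool.Agent.W750.AF.tl Pool.Agent.W824.AF.pv

theorem sym : S_SYM := Pool.Agent.W361.AF.sym

end Pool.Agent.W169.AF
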