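import Pool.Agent.W169.AF.Derw
import Pool.Agent.W108.RT.Ord

set_option autoImplicit false

/-! Project AF: the number of zeros near a point, at all scales. -/

namespace Pool.Agent.W169.AF

open Finset Filter Topology MeasureTheory
open Pool.Agent.H24R2.DZ (NN ra)

noncomputable section

theorem PC_ne {q : ℕ} (hq : 2 ≤ q) {χ : DirichletCharacter ℂ q} (hχ : χ ∈ PC q) : χ ≠ 1 := by
  classical
  have hne : NeZero q := ⟨by omega⟩
  have h : χ.IsPrimitive := by
    unfold PC at hχ
    exact (Finset.mem_filter.1 hχ).2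
  rintro rfl
  rw [DirichletCharacter.isPrimitive_def, DirichletCharacter.conductor_one] at h
  omega

theorem ord1 {q : ℕ} (hq : 2 ≤ q) {χ : DirichletCharacter ℂ q} (hχ : χ ∈ PC q) {s : ℂ}
    (hs : 0 < s.re) : analyticOrderNatAt (LF q χ) s = analyticOrderNatAt (LC q χ) s := by
  have hne : NeZero q := ⟨by omega⟩
  have h1 := PC_ne hq hχ
  have hq0 : q ≠ 0 := by omega
  have hN : q ≠ 1 := by omega
  obtain ⟨g, hg1, hg2, hg3⟩ := Pool.Agent.W108.RT.exists_gam χ
  have hcd : Differentiable ℂ (DirichletCharacter.completedLFunction χ) :=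
    DirichletCharacter.differentiable_completedLFunction h1
  have hN0 : (q : ℂ) ≠ 0 := NeZero.ne _
  have hpd : Differentiable ℂ (fun w : ℂ => (q : ℂ) ^ (w / 2)) := by
    intro w
    exact ((differentiableAt_id.div_const 2).const_cpow (Or.inl hN0))
  have hpn : ∀ w : ℂ, (q : ℂ) ^ (w / 2) ≠ 0 := fun w => by
    rw [Ne, Complex.cpow_eq_zero_iff]
    exact fun h => hN0 h.1
  have hLF : LF q χ = DirichletCharacter.completedLFunction χ * g := by
    funext w
    unfold LF
    rw [dif_neg hq0, DirichletCharacter.LFunction_eq_completed_div_gammaFactor χ w (Or.inr hN),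
      div_eq_mul_inv, hg3]
    rfl
  have hLam : LC q χ = (fun w : ℂ => (q : ℂ) ^ (w / 2)) * DirichletCharacter.completedLFunction χ := by
    funext w
    unfold LC
    rw [dif_neg hq0]
    rfl
  have e1 : analyticOrderAt (LF q χ) s =
      analyticOrderAt (DirichletCharacter.completedLFunction χ) s := by
    rw [hLF, analyticOrderAt_mul (hcd.analyticAt s) (hg1.analyticAt s),
      (hg1.analyticAt s).analyticOrderAt_eq_zero.2 (hg2 s hs), add_zero]
  have e2 : analyticOrderAt (LC q χ) s =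
      analyticOrderAt (DirichletCharacter.completedLFunction χ) s := by
    rw [hLam, analyticOrderAt_mul (hpd.analyticAt s) (hcd.analyticAt s),
      (hpd.analyticAt s).analyticOrderAt_eq_zero.2 (hpn s), zero_add]
  unfold analyticOrderNatAt
  rw [e1, e2]

theorem ord2 {F : ℂ → ℂ} (hF : Differentiable ℂ F) {ω b c : ℂ} (hω : ω ≠ 0) (hc : c ≠ 0) (z : ℂ) :
    analyticOrderNatAt (fun z => ω * F (b + c * z)) z = analyticOrderNatAt F (b + c * z) := by
  have had : Differentiable ℂ (fun z : ℂ => b + c * z) := by fun_prop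
  have hder : deriv (fun z : ℂ => b + c * z) z ≠ 0 := by
    have h1 : HasDerivAt (fun z : ℂ => b + c * z) (c * 1) z :=
      ((hasDerivAt_id z).const_mul c).const_add b
    rw [h1.deriv, mul_one]
    exact hc
  have e3 : analyticOrderAt (fun z => F (b + c * z)) z = analyticOrderAt F (b + c * z) :=
    analyticOrderAt_comp_of_deriv_ne_zero (f := F) (had.analyticAt z) hder
  have hcon : Differentiable ℂ (fun _ : ℂ => ω) := differentiable_const _
  have e4 : analyticOrderAt (fun z => ω * F (b + c * z)) z =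
      analyticOrderAt (fun z => F (b + c * z)) z := by
    have := analyticOrderAt_mul (hcon.analyticAt z) ((hF.comp had).analyticAt z)
    rw [(hcon.analyticAt z).analyticOrderAt_eq_zero.2 hω, zero_add] at this
    exact this
  unfold analyticOrderNatAt
  rw [e4, e3]

/-- every disc with centre `1/2 + i t0` and radius `A / log Q`, `R ≤ A ≤ c log Q`, contains at most
`K A` zeros of `L(s, χ)`, with multiplicity -/
def ZeroGood (c K : ℝ) (Q : ℕ) (R t0 : ℝ) (q : ℕ) (χ : DirichletCharacter ℂ q) : Prop :=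
  ∀ A : ℝ, R ≤ A → A ≤ c * Real.log Q → ∀ S : Finset ℂ,
    (∀ s ∈ S, ‖s - (1 / 2 + Complex.I * t0)‖ ≤ A / Real.log Q) →
      ∑ s ∈ S, (analyticOrderNatAt (LF q χ) s : ℝ) ≤ K * A

theorem zero_thm (hNQ : S_NQw) (hZN : S_ZN) (hSYM : S_SYM) : ∃ C c K : ℝ, 0 < C ∧ 0 < c ∧ 0 < K ∧
    ∀ (Q : ℕ) (R t0 : ℝ), 2 ≤ Q → 1 ≤ R → |t0| ≤ (Q : ℝ) ^ c →
      cnt Q (fun q χ => ¬ ZeroGood c K Q R t0 q χ) ≤ C * (Q : ℝ) ^ 2 * Real.exp (-(c * R)) := by
  classical
  obtain ⟨η, K, hη, hK, hzn⟩ := hZN
  obtain ⟨C, c, hC, hc, hc30, H⟩ := scalesw hNQ hη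
  refine ⟨Real.exp 1 + C, c, 2 * K, by positivity, hc, by positivity, ?_⟩
  intro Q R t0 hQ hR ht
  have hQ2 : (2 : ℝ) ≤ Q := by exact_mod_cast hQ
  have hQp : (0 : ℝ) < Q := by linarith
  have hL : 0 < Real.log Q := Real.log_pos (by linarith)
  rcases lt_or_ge (c * Real.log Q) R with h | h
  · refine (cnt_false ?_).trans (by positivity)
    intro q hq1 hq2 χ hχ hn
    apply hn
    intro A hA1 hA2
    exfalso
    linarith
  have hcL : c * Real.log Q ≤ Real.log Q / 30 := by
    have : c * Real.log Q ≤ 1 / 30 * Real.log Q := mul_le_mul_of_nonneg_right hc30 hL.le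
    linarith
  have hRL : R ≤ Real.log Q := by linarith
  have h2 : cnt Q (fun q χ => ¬ ZeroGood c (2 * K) Q R t0 q χ) ≤
      cnt Q (fun q χ => ∃ m : ℕ, R ≤ m ∧ (m : ℝ) ≤ Real.log Q / 10 ∧ ¬ NNx η Q m t0 q χ) := by
    apply cnt_mono
    intro q hq1 hq2 χ hχ hn
    by_contra hcon
    push Not at hcon
    apply hn
    intro A hA1 hA2 S hS
    have hA0 : 1 ≤ A := hR.trans hA1
    set m := ⌈A⌉₊ with hm
    have hm1 : A ≤ m := Nat.le_ceil A
    have hm2 : (m : ℝ) < A + 1 := Nat.ceil_lt_add_one (by linarith)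
    have hm3 : (m : ℝ) ≤ Real.log Q / 10 := by linarith
    have hm4 : (1 : ℝ) ≤ m := by linarith
    have hNN := (hcon m (hA1.trans hm1) hm3).1
    obtain ⟨hd, -, hω⟩ := hSYM q hq1 χ hχ
    obtain ⟨ω, hω1, hω2⟩ := hω t0
    have hω0 : ω ≠ 0 := by
      intro h
      rw [h, norm_zero] at hω1
      exact one_ne_zero hω1.symm
    have hNN1 := hNN ω hω1 hω2
    have hr0 : 0 < ra Q m := by
      unfold ra
      positivity
    have hrc : ((ra Q m : ℝ) : ℂ) ≠ 0 := by exact_mod_cast hr0.ne'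
    set b : ℂ := 1 / 2 + Complex.I * t0 with hb
    set S' : Finset ℂ := S.image (fun s => (s - b) / (ra Q m : ℂ)) with hS'
    have hinj : Set.InjOn (fun s : ℂ => (s - b) / (ra Q m : ℂ)) (S : Set ℂ) := by
      intro x _ y _ hxy
      have h3 : (x - b) / (ra Q m : ℂ) = (y - b) / (ra Q m : ℂ) := hxy
      rw [div_left_inj' hrc] at h3
      exact sub_left_inj.1 h3
    have h5 := hzn m _ hm4 hNN1 S' (by
      intro z hz
      rw [hS', Finset.mem_image] at hz
      obtain ⟨s, hs, rfl⟩ := hz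
      rw [norm_div, Complex.norm_real, Real.norm_eq_abs, abs_of_pos hr0, div_le_one hr0]
      refine (hS s hs).trans ?_
      unfold ra
      rw [div_le_div_iff₀ hL (by positivity)]
      nlinarith)
    rw [hS', Finset.sum_image hinj] at h5
    have h6 : ∀ s ∈ S, analyticOrderNatAt (fun z => ω * LC q χ (b + ra Q m * z))
        ((s - b) / (ra Q m : ℂ)) = analyticOrderNatAt (LF q χ) s := by
      intro s hs
      have hsb : b + (ra Q m : ℂ) * ((s - b) / (ra Q m : ℂ)) = s := by
        rw [mul_div_cancel₀ _ hrc]; ring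
      rw [ord2 hd hω0 hrc, hsb, ord1 hq1 hχ]
      have h7 := hS s hs
      have h8 : A / Real.log Q ≤ 1 / 30 := by
        rw [div_le_iff₀ hL]; linarith
      have h9 : |(s - b).re| ≤ ‖s - b‖ := Complex.abs_re_le_norm _
      have h10 : (s - b).re = s.re - 1 / 2 := by
        rw [hb]; simp
      rw [h10] at h9
      have h11 := (abs_le.1 (h9.trans (h7.trans h8))).1
      linarith
    rw [Finset.sum_congr rfl (fun s hs => by rw [h6 s hs])] at h5
    calc ∑ s ∈ S, (analyticOrderNatAt (LF q χ) s : ℝ) ≤ K * m := h5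
      _ ≤ K * (2 * A) := mul_le_mul_of_nonneg_left (by linarith) hK.le
      _ = 2 * K * A := by ring
  calc _ ≤ _ := h2
    _ ≤ C * (Q : ℝ) ^ 2 * Real.exp (-(c * R)) := H Q R t0 hQ (by linarith) hRL ht
    _ ≤ (Real.exp 1 + C) * (Q : ℝ) ^ 2 * Real.exp (-(c * R)) := by
        apply mul_le_mul_of_nonneg_right _ (Real.exp_pos _).le
        apply mul_le_mul_of_nonneg_right _ (by positivity)
        linarith [Real.exp_pos 1]

end

end Pool.Agent.W169.AF
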